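import Mathlib

/-!
Global existence and uniqueness of solutions of ordinary differential equations.
-/

namespace Pool.Agent.Helper61

open Set Filter Topology
open scoped NNReal

lemma glue {E : Type*} (α : ℕ → ℝ → E)
    (h : ∀ n m : ℕ, n ≤ m → ∀ t : ℝ, |t| < n → α m t = α n t) :
    ∃ β : ℝ → E, ∀ (n : ℕ) (t : ℝ), |t| < n → β t = α n t := by
  refine ⟨fun t => α (⌊|t|⌋₊ + 1) t, fun n t ht => ?_⟩
  have h1 : ⌊|t|⌋₊ + 1 ≤ n := by
    have := (Nat.floor_lt (abs_nonneg t)).2 ht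
    omega
  have h2 : |t| < ((⌊|t|⌋₊ + 1 : ℕ) : ℝ) := by
    push_cast
    exact Nat.lt_floor_add_one _
  exact (h _ n h1 t h2).symm

lemma abs_lt_mem_nhds {t : ℝ} {n : ℝ} (ht : |t| < n) : ∀ᶠ s in 𝓝 t, |s| < n :=
  continuous_abs.continuousAt.eventually (gt_mem_nhds ht)

/-- Global existence for time-dependent fields that are bounded and Lipschitz, locally uniformly in
time. -/
lemma ode_global {E : Type*} [NormedAddCommGroup E] [NormedSpace ℝ E] [CompleteSpace E]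
    (V : ℝ → E → E)
    (hV : ∀ T : ℝ, ∃ K L : ℝ≥0, (∀ t ∈ Icc (-T) T, LipschitzWith K (V t)) ∧
      ∀ t ∈ Icc (-T) T, ∀ x, ‖V t x‖ ≤ L)
    (hc : ∀ x, Continuous fun t => V t x) (x0 : E) :
    ∃ α : ℝ → E, α 0 = x0 ∧ ∀ t, HasDerivAt α (V t (α t)) t := by
  have h1 : ∀ n : ℕ, ∃ α : ℝ → E, α 0 = x0 ∧ ∀ t, |t| < (n : ℝ) → HasDerivAt α (V t (α t)) t := by
    intro n
    obtain ⟨K, L, hK, hL⟩ := hV n
    have h0 : (0 : ℝ) ∈ Icc (-(n : ℝ)) n := ⟨by simp, by positivity⟩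
    have hPL : IsPicardLindelof V (⟨0, h0⟩ : Icc (-(n : ℝ)) n) x0 (L * n) 0 L K := by
      constructor
      · intro t ht
        exact (hK t ht).lipschitzOnWith
      · intro x _
        exact (hc x).continuousOn
      · intro t ht x _
        exact hL t ht x
      · simp
    obtain ⟨α, hα0, hα⟩ := hPL.exists_eq_forall_mem_Icc_hasDerivWithinAt₀
    refine ⟨α, hα0, fun t ht => ?_⟩
    rw [abs_lt] at ht
    exact (hα t ⟨ht.1.le, ht.2.le⟩).hasDerivAt (Icc_mem_nhds ht.1 ht.2)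
  choose α hα0 hα using h1
  have hag : ∀ n m : ℕ, n ≤ m → ∀ t : ℝ, |t| < n → α m t = α n t := by
    intro n m hnm t ht
    obtain ⟨K, L, hK, hL⟩ := hV n
    have hn : (0 : ℝ) < n := lt_of_le_of_lt (abs_nonneg t) ht
    have hnm' : (n : ℝ) ≤ m := by exact_mod_cast hnm
    have := ODE_solution_unique_of_mem_Ioo (v := V) (s := fun _ => univ) (K := K)
      (a := -(n : ℝ)) (b := n) (t₀ := 0) (f := α m) (g := α n)
      (fun s hs => (hK s ⟨hs.1.le, hs.2.le⟩).lipschitzOnWith)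
      ⟨by linarith, hn⟩
      (fun s hs => ⟨hα m s (lt_of_lt_of_le (abs_lt.2 hs) hnm'), mem_univ _⟩)
      (fun s hs => ⟨hα n s (abs_lt.2 hs), mem_univ _⟩)
      (by rw [hα0, hα0])
    exact this (abs_lt.1 ht)
  obtain ⟨β, hβ⟩ := glue α hag
  refine ⟨β, ?_, fun t => ?_⟩
  · rw [hβ 1 0 (by simp), hα0]
  · obtain ⟨n, hn⟩ := exists_nat_gt |t|
    have h2 : β =ᶠ[𝓝 t] α n := by
      filter_upwards [abs_lt_mem_nhds hn] with s hs using hβ n s hs
    rw [h2.hasDerivAt_iff, hβ n t hn]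
    exact hα n t hn

/-- Uniqueness for curves staying in an open region where the field is `C^1`. -/
lemma ode_unique_open {E : Type*} [NormedAddCommGroup E] [NormedSpace ℝ E]
    {X : E → E} {Ω : Set E} (hX : ∀ x ∈ Ω, ContDiffAt ℝ 1 X x) {α β : ℝ → E}
    (hα : ∀ t, HasDerivAt α (X (α t)) t) (hαΩ : ∀ t, α t ∈ Ω)
    (hβ : ∀ t, HasDerivAt β (X (β t)) t) {t₀ : ℝ} (h0 : α t₀ = β t₀) : α = β := by
  have hcα : Continuous α := continuous_iff_continuousAt.2 fun t => (hα t).continuousAt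
  have hcβ : Continuous β := continuous_iff_continuousAt.2 fun t => (hβ t).continuousAt
  have hclosed : IsClosed {t | α t = β t} := isClosed_eq hcα hcβ
  have hopen : IsOpen {t | α t = β t} := by
    rw [isOpen_iff_mem_nhds]
    intro t ht
    obtain ⟨K, s, hs, hK⟩ := (hX (α t) (hαΩ t)).exists_lipschitzOnWith
    have h1 : ∀ᶠ r in 𝓝 t, α r ∈ s := hcα.continuousAt hs
    have h2 : ∀ᶠ r in 𝓝 t, β r ∈ s := by
      have : s ∈ 𝓝 (β t) := by
        have e : α t = β t := ht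
        rw [← e]; exact hs
      exact hcβ.continuousAt this
    have := ODE_solution_unique_of_eventually (v := fun _ => X) (s := fun _ => s) (K := K)
      (t₀ := t) (f := α) (g := β) (Eventually.of_forall fun _ => hK)
      (h1.mono fun r hr => ⟨hα r, hr⟩) (h2.mono fun r hr => ⟨hβ r, hr⟩) ht
    exact this
  have huniv : {t | α t = β t} = univ := IsClopen.eq_univ ⟨hclosed, hopen⟩ ⟨t₀, h0⟩
  ext t
  have : t ∈ {t | α t = β t} := by rw [huniv]; trivial
  exact this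

/-- Mean value inequality on a symmetric interval. -/
lemma abs_sub_le_of_deriv_le {f f' : ℝ → ℝ} {C T : ℝ}
    (hf : ∀ t, |t| ≤ T → HasDerivAt f (f' t) t) (hC : ∀ t, |t| ≤ T → |f' t| ≤ C)
    {t : ℝ} (ht : |t| ≤ T) : |f t - f 0| ≤ C * |t| := by
  have hT : 0 ≤ T := (abs_nonneg t).trans ht
  have h := (convex_Icc (-T) T).norm_image_sub_le_of_norm_hasDerivWithin_le
    (f := f) (f' := f') (C := C) (x := 0) (y := t)
    (fun s hs => (hf s (abs_le.2 hs)).hasDerivWithinAt)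
    (fun s hs => by rw [Real.norm_eq_abs]; exact hC s (abs_le.2 hs))
    ⟨by linarith, hT⟩ (abs_le.1 ht)
  simpa [Real.norm_eq_abs] using h

end Pool.Agent.Helper61
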