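import Mathlib

/-!
Elementary inequalities behind the curvature bounds.
-/

namespace Pool.Agent.Helper61

/-- `|∇F|² - F ΔF = (F² - a²b²)/3` for `F = a + b - ab`. -/
lemma grad_lap_identity (a b : ℝ) :
    (a * (2 / 3 - a) * (1 - b) ^ 2 + b * (2 / 3 - b) * (1 - a) ^ 2)
      - (a + b - a * b) * (2 / 3 - 4 / 3 * (a + b) + 2 * (a * b))
      = ((a + b - a * b) ^ 2 - (a * b) ^ 2) / 3 := by
  ring

lemma two_ab_le {a b : ℝ} (ha : 0 ≤ a) (ha' : a ≤ 2 / 3) (hb : 0 ≤ b) (hb' : b ≤ 2 / 3) :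
    2 * (a * b) ≤ a + b - a * b := by
  nlinarith [mul_nonneg ha hb, mul_nonneg ha (sub_nonneg.2 hb'), mul_nonneg hb (sub_nonneg.2 ha')]

lemma N_lower {a b : ℝ} (ha : 0 ≤ a) (ha' : a ≤ 2 / 3) (hb : 0 ≤ b) (hb' : b ≤ 2 / 3) :
    (a + b - a * b) ^ 2 / 4 ≤ ((a + b - a * b) ^ 2 - (a * b) ^ 2) / 3 := by
  have h := two_ab_le ha ha' hb hb'
  have h0 : 0 ≤ a * b := mul_nonneg ha hb
  nlinarith [mul_self_le_mul_self (by positivity : 0 ≤ 2 * (a * b)) h]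

lemma N_upper (a b : ℝ) :
    ((a + b - a * b) ^ 2 - (a * b) ^ 2) / 3 ≤ (a + b - a * b) ^ 2 / 3 := by
  nlinarith [sq_nonneg (a * b)]

lemma F_nonneg {a b : ℝ} (ha : 0 ≤ a) (ha' : a ≤ 2 / 3) (hb : 0 ≤ b) :
    0 ≤ a + b - a * b := by
  nlinarith [mul_nonneg hb (by linarith : (0 : ℝ) ≤ 1 - a)]

lemma F_le_one {a b : ℝ} (ha' : a ≤ 2 / 3) (hb' : b ≤ 2 / 3) :
    a + b - a * b ≤ 1 := by
  nlinarith [mul_nonneg (by linarith : (0 : ℝ) ≤ 1 - a) (by linarith : (0 : ℝ) ≤ 1 - b)]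

lemma grad_upper {a b : ℝ} (ha : 0 ≤ a) (ha' : a ≤ 2 / 3) (hb : 0 ≤ b) (hb' : b ≤ 2 / 3) :
    a * (2 / 3 - a) * (1 - b) ^ 2 + b * (2 / 3 - b) * (1 - a) ^ 2
      ≤ 2 / 3 * (a + b - a * b) := by
  have h1 := grad_lap_identity a b
  have h2 := N_upper a b
  have hF := F_nonneg ha ha' hb
  have hab := two_ab_le ha ha' hb hb'
  nlinarith [mul_nonneg hF (mul_nonneg ha hb), mul_nonneg hF (sub_nonneg.2 hab)]

lemma grad_lower {a b : ℝ} (ha : 0 ≤ a) (ha' : a ≤ 2 / 3) (hb : 0 ≤ b) (hb' : b ≤ 2 / 3) :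
    (a + b - a * b) * (2 / 3 - 13 / 12 * (a + b - a * b))
      ≤ a * (2 / 3 - a) * (1 - b) ^ 2 + b * (2 / 3 - b) * (1 - a) ^ 2 := by
  have h1 := grad_lap_identity a b
  have h2 := N_lower ha ha' hb hb'
  have hF := F_nonneg ha ha' hb
  nlinarith [mul_nonneg hF (mul_nonneg ha hb)]

/-- `√F (3 - ½ log F) ≤ 3`. -/
lemma FH_sq_le {F : ℝ} (hF : 0 < F) (hF1 : F ≤ 1) :
    F * (3 - 1 / 2 * Real.log F) ^ 2 ≤ 9 := by
  set q := Real.sqrt F with hq
  have hq0 : 0 < q := Real.sqrt_pos.2 hF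
  have hq1 : q ≤ 1 := by rw [hq]; exact Real.sqrt_le_one.2 hF1
  have hqF : F = q ^ 2 := (Real.sq_sqrt hF.le).symm
  have hlog : Real.log F = 2 * Real.log q := by
    rw [hqF, Real.log_pow]; norm_num
  have h1 : -Real.log q ≤ 1 / q - 1 := by
    have := Real.log_le_sub_one_of_pos (by positivity : 0 < 1 / q)
    rw [one_div, Real.log_inv] at this
    rw [one_div]
    exact this
  have h2 : q * (3 - Real.log q) ≤ 3 := by
    have h3 : q * (-Real.log q) ≤ q * (1 / q - 1) := mul_le_mul_of_nonneg_left h1 hq0.le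
    have h4 : q * (1 / q - 1) = 1 - q := by field_simp
    nlinarith
  have h5 : 0 ≤ q * (3 - Real.log q) := by
    have : Real.log q ≤ 0 := Real.log_nonpos hq0.le hq1
    have : 0 ≤ 3 - Real.log q := by linarith
    positivity
  rw [hlog, hqF]
  have h6 : q ^ 2 * (3 - 1 / 2 * (2 * Real.log q)) ^ 2 = (q * (3 - Real.log q)) ^ 2 := by ring
  rw [h6]
  nlinarith

/-- Lower curvature bound, in normalised form. -/
lemma kappa_lower {F H N g D : ℝ} (hF : 0 < F) (hH : 3 ≤ H)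
    (hN : F ^ 2 / 4 ≤ N) (hg : F * (2 / 3 - 13 / 12 * F) ≤ g) (hD : D ≤ 1 / 25) :
    1 / 6 ≤ H * (H - 1) * N / (2 * F) + g / (4 * F) - F * H ^ 2 * D := by
  have h1 : H * (H - 1) * F / 8 ≤ H * (H - 1) * N / (2 * F) := by
    rw [div_le_div_iff₀ (by norm_num) (by positivity)]
    have : 0 ≤ H * (H - 1) := mul_nonneg (by linarith) (by linarith)
    nlinarith [mul_le_mul_of_nonneg_left hN this]
  have h2 : 1 / 6 - 13 / 48 * F ≤ g / (4 * F) := by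
    rw [le_div_iff₀ (by positivity)]
    nlinarith
  have h3 : F * H ^ 2 * D ≤ F * H ^ 2 / 25 := by
    have : 0 ≤ F * H ^ 2 := by positivity
    nlinarith
  have h4 : 0 ≤ F * (H * (H - 1) / 8 - H ^ 2 / 25 - 13 / 48) := by
    apply mul_nonneg hF.le
    nlinarith
  nlinarith

/-- Upper curvature bound, in normalised form. -/
lemma kappa_upper {F H N g D : ℝ} (hF : 0 < F) (hH : 3 ≤ H) (hFH : F * H ^ 2 ≤ 9)
    (hN : N ≤ F ^ 2 / 3) (hg : g ≤ 2 / 3 * F) (hD : -(1 / 25) ≤ D) :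
    H * (H - 1) * N / (2 * F) + g / (4 * F) - F * H ^ 2 * D ≤ 3 := by
  have h1 : H * (H - 1) * N / (2 * F) ≤ F * H ^ 2 / 6 := by
    rw [div_le_div_iff₀ (by positivity) (by norm_num)]
    have h0 : 0 ≤ H * (H - 1) := mul_nonneg (by linarith) (by linarith)
    have h5 := mul_le_mul_of_nonneg_left hN h0
    have h6 : 0 ≤ F ^ 2 * H := by positivity
    nlinarith
  have h2 : g / (4 * F) ≤ 1 / 6 := by
    rw [div_le_iff₀ (by positivity)]
    linarith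
  have h3 : -(F * H ^ 2 * D) ≤ F * H ^ 2 / 25 := by
    have : 0 ≤ F * H ^ 2 := by positivity
    nlinarith
  linarith

end Pool.Agent.Helper61
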