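import Mathlib

/-!
Gradients and Laplacians of real functions on the plane by the chain rule.
-/

namespace Pool.Agent.Helper61

open Complex Filter Topology Laplacian

/-- The real linear form `v ↦ a v.re + b v.im`. -/
noncomputable def form (a b : ℝ) : ℂ →L[ℝ] ℝ := a • Complex.reCLM + b • Complex.imCLM

lemma form_apply (a b : ℝ) (v : ℂ) : form a b v = a * v.re + b * v.im := by
  simp [form]

/-- First and second order data of `f` at `z`. -/
structure Jet (f fx fy : ℂ → ℝ) (L : ℝ) (z : ℂ) : Prop where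
  first : ∀ᶠ w in 𝓝 z, HasFDerivAt f (form (fx w) (fy w)) w
  second : ∃ A B C D : ℝ, HasFDerivAt fx (form A B) z ∧ HasFDerivAt fy (form C D) z ∧ A + D = L

lemma gradient_of_hasFDerivAt {f : ℂ → ℝ} {a b : ℝ} {z : ℂ} (h : HasFDerivAt f (form a b) z) :
    gradient f z = (⟨a, b⟩ : ℂ) := by
  have h1 : HasGradientAt f (⟨a, b⟩ : ℂ) z := by
    rw [hasGradientAt_iff_hasFDerivAt]
    refine h.congr_fderiv ?_
    ext v
    simp [form]
    ring
  exact h1.gradient

lemma Jet.gradient {f fx fy : ℂ → ℝ} {L : ℝ} {z : ℂ} (h : Jet f fx fy L z) :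
    gradient f z = (⟨fx z, fy z⟩ : ℂ) :=
  gradient_of_hasFDerivAt h.first.self_of_nhds

lemma Jet.laplacian {f fx fy : ℂ → ℝ} {L : ℝ} {z : ℂ} (h : Jet f fx fy L z) :
    (Δ f) z = L := by
  obtain ⟨A, B, C, D, hx, hy, hL⟩ := h.second
  rw [InnerProductSpace.laplacian_eq_iteratedFDeriv_complexPlane]
  simp only [iteratedFDeriv_two_apply]
  have h1 : fderiv ℝ f =ᶠ[𝓝 z] fun w => form (fx w) (fy w) := by
    filter_upwards [h.first] with w hw
    exact hw.fderiv
  rw [h1.fderiv_eq]
  have h2 : HasFDerivAt (fun w => form (fx w) (fy w))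
      ((form A B).smulRight Complex.reCLM + (form C D).smulRight Complex.imCLM) z := by
    unfold form
    exact (hx.smul_const Complex.reCLM).add (hy.smul_const Complex.imCLM)
  rw [h2.fderiv]
  simp [form_apply]
  exact hL

/-- Chain rule for `g ∘ f`. -/
lemma Jet.comp {f fx fy : ℂ → ℝ} {L : ℝ} {z : ℂ} (h : Jet f fx fy L z) {g g' : ℝ → ℝ} {g'' : ℝ}
    (h1 : ∀ᶠ t in 𝓝 (f z), HasDerivAt g (g' t) t) (h2 : HasDerivAt g' g'' (f z)) :
    Jet (fun w => g (f w)) (fun w => g' (f w) * fx w) (fun w => g' (f w) * fy w)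
      (g' (f z) * L + g'' * (fx z ^ 2 + fy z ^ 2)) z := by
  have hf : HasFDerivAt f (form (fx z) (fy z)) z := h.first.self_of_nhds
  obtain ⟨A, B, C, D, hx, hy, hL⟩ := h.second
  constructor
  · filter_upwards [h.first, hf.continuousAt.eventually h1] with w hw1 hw2
    have := hw2.comp_hasFDerivAt w hw1
    exact this.congr_fderiv (by unfold form; module)
  · have hg : HasFDerivAt (fun w => g' (f w)) (g'' • form (fx z) (fy z)) z :=
      h2.comp_hasFDerivAt z hf
    refine ⟨g'' * fx z * fx z + g' (f z) * A, g'' * fy z * fx z + g' (f z) * B,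
      g'' * fx z * fy z + g' (f z) * C, g'' * fy z * fy z + g' (f z) * D, ?_, ?_, ?_⟩
    · exact (hg.mul hx).congr_fderiv (by unfold form; module)
    · exact (hg.mul hy).congr_fderiv (by unfold form; module)
    · rw [← hL]; ring

lemma Jet.add {f fx fy g gx gy : ℂ → ℝ} {L M : ℝ} {z : ℂ} (hf : Jet f fx fy L z)
    (hg : Jet g gx gy M z) :
    Jet (fun w => f w + g w) (fun w => fx w + gx w) (fun w => fy w + gy w) (L + M) z := by
  obtain ⟨A, B, C, D, hx, hy, hL⟩ := hf.second
  obtain ⟨A', B', C', D', hx', hy', hL'⟩ := hg.second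
  constructor
  · filter_upwards [hf.first, hg.first] with w h1 h2
    exact (h1.add h2).congr_fderiv (by unfold form; module)
  · refine ⟨A + A', B + B', C + C', D + D', ?_, ?_, by rw [← hL, ← hL']; ring⟩
    · exact (hx.add hx').congr_fderiv (by unfold form; module)
    · exact (hy.add hy').congr_fderiv (by unfold form; module)

/-- Functions of the form `u(x) v(y)`. -/
lemma hasFDerivAt_re {u : ℝ → ℝ} {u' : ℝ} {z : ℂ} (h : HasDerivAt u u' z.re) :
    HasFDerivAt (fun w : ℂ => u w.re) (form u' 0) z := by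
  have := h.comp_hasFDerivAt z (Complex.reCLM.hasFDerivAt (x := z))
  exact this.congr_fderiv (by unfold form; module)

lemma hasFDerivAt_im {u : ℝ → ℝ} {u' : ℝ} {z : ℂ} (h : HasDerivAt u u' z.im) :
    HasFDerivAt (fun w : ℂ => u w.im) (form 0 u') z := by
  have := h.comp_hasFDerivAt z (Complex.imCLM.hasFDerivAt (x := z))
  exact this.congr_fderiv (by unfold form; module)

end Pool.Agent.Helper61
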