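import Mathlib
import Pool.Agent.Helper61.Liouville.Jet
import Pool.Agent.Helper61.Liouville.Ineq

/-!
The explicit conformal factor and its curvature.
-/

namespace Pool.Agent.Helper61

open Complex Filter Topology Laplacian

/-- `(1 - cos t)/3`. -/
noncomputable def al (t : ℝ) : ℝ := (1 - Real.cos t) / 3

/-- `F = a + b - ab`, vanishing exactly on the lattice `2πℤ + 2πiℤ`. -/
noncomputable def FF (z : ℂ) : ℝ := al z.re + al z.im - al z.re * al z.im

/-- `100 + |z|²`. -/
noncomputable def qq (z : ℂ) : ℝ := 100 + z.re ^ 2 + z.im ^ 2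

/-- `3 - ½ log t`. -/
noncomputable def hh (t : ℝ) : ℝ := 3 - 1 / 2 * Real.log t

noncomputable def g1 (t : ℝ) : ℝ := -(1 / 2) * Real.log t - Real.log (hh t)
noncomputable def g1' (t : ℝ) : ℝ := -(1 / (2 * t)) * (1 - 1 / hh t)
noncomputable def g1'' (t : ℝ) : ℝ :=
  1 / (2 * t ^ 2) * (1 - 1 / hh t) + 1 / (4 * t ^ 2 * hh t ^ 2)
noncomputable def g2 (t : ℝ) : ℝ := -(1 / 2) * Real.log t - Real.log (Real.log t)
noncomputable def g2' (t : ℝ) : ℝ := -(1 / (2 * t)) - 1 / (t * Real.log t)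
noncomputable def g2'' (t : ℝ) : ℝ :=
  1 / (2 * t ^ 2) + (Real.log t + 1) / (t ^ 2 * Real.log t ^ 2)

/-- The logarithm of the conformal factor. -/
noncomputable def ph (z : ℂ) : ℝ := g1 (FF z) + g2 (qq z)

lemma al_nonneg (t : ℝ) : 0 ≤ al t := by
  unfold al; linarith [Real.cos_le_one t]

lemma al_le (t : ℝ) : al t ≤ 2 / 3 := by
  unfold al; linarith [Real.neg_one_le_cos t]

lemma FF_nonneg (z : ℂ) : 0 ≤ FF z := F_nonneg (al_nonneg _) (al_le _) (al_nonneg _)

lemma FF_le_one (z : ℂ) : FF z ≤ 1 := F_le_one (al_le _) (al_le _)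

lemma qq_ge (z : ℂ) : 100 ≤ qq z := by
  unfold qq; nlinarith [sq_nonneg z.re, sq_nonneg z.im]

lemma log_qq_ge (z : ℂ) : 2 ≤ Real.log (qq z) := by
  rw [Real.le_log_iff_exp_le (by linarith [qq_ge z])]
  have h1 : Real.exp 2 = Real.exp 1 * Real.exp 1 := by rw [← Real.exp_add]; norm_num
  have h2 := Real.exp_one_lt_d9
  have h3 := Real.exp_pos 1
  rw [h1]
  nlinarith [qq_ge z]

lemma hh_ge {t : ℝ} (h0 : 0 < t) (h1 : t ≤ 1) : 3 ≤ hh t := by
  unfold hh; linarith [Real.log_nonpos h0.le h1]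

lemma hasDerivAt_al (t : ℝ) : HasDerivAt al (Real.sin t / 3) t := by
  have h : HasDerivAt (fun t => (1 - Real.cos t) / 3) (-(-Real.sin t) / 3) t :=
    ((Real.hasDerivAt_cos t).const_sub 1).div_const 3
  exact h.congr_deriv (by ring)

lemma hasDerivAt_sin3 (t : ℝ) : HasDerivAt (fun t => Real.sin t / 3) (1 / 3 - al t) t := by
  have := (Real.hasDerivAt_sin t).div_const 3
  exact this.congr_deriv (by unfold al; ring)

lemma sin3_sq (t : ℝ) : (Real.sin t / 3) ^ 2 = al t * (2 / 3 - al t) := by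
  have := Real.sin_sq_add_cos_sq t
  unfold al
  nlinarith

/-- Derivatives of `F`. -/
noncomputable def FFx (z : ℂ) : ℝ := Real.sin z.re / 3 * (1 - al z.im)
noncomputable def FFy (z : ℂ) : ℝ := Real.sin z.im / 3 * (1 - al z.re)

lemma jet_FF (z : ℂ) : Jet FF FFx FFy (2 / 3 - 4 / 3 * (al z.re + al z.im)
    + 2 * (al z.re * al z.im)) z := by
  constructor
  · refine Filter.Eventually.of_forall fun w => ?_
    have h1 := hasFDerivAt_re (hasDerivAt_al w.re)
    have h2 := hasFDerivAt_im (hasDerivAt_al w.im)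
    refine ((h1.add h2).sub (h1.mul h2)).congr_fderiv ?_
    unfold form FFx FFy
    module
  · refine ⟨(1 / 3 - al z.re) * (1 - al z.im), -(Real.sin z.re / 3 * (Real.sin z.im / 3)),
      -(Real.sin z.im / 3 * (Real.sin z.re / 3)), (1 / 3 - al z.im) * (1 - al z.re), ?_, ?_, ?_⟩
    · have h1 := hasFDerivAt_re (hasDerivAt_sin3 z.re)
      have h2 := hasFDerivAt_im ((hasDerivAt_al z.im).const_sub 1)
      refine (h1.mul h2).congr_fderiv ?_
      unfold form
      module
    · have h1 := hasFDerivAt_im (hasDerivAt_sin3 z.im)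
      have h2 := hasFDerivAt_re ((hasDerivAt_al z.re).const_sub 1)
      refine (h1.mul h2).congr_fderiv ?_
      unfold form
      module
    · ring

lemma jet_qq (z : ℂ) : Jet qq (fun w => 2 * w.re) (fun w => 2 * w.im) 4 z := by
  constructor
  · refine Filter.Eventually.of_forall fun w => ?_
    have h1 := hasFDerivAt_re (u := fun t => 100 + t ^ 2) (u' := 2 * w.re) (z := w) (by
      have := (hasDerivAt_pow 2 w.re).const_add 100
      simpa using this)
    have h2 := hasFDerivAt_im (u := fun t => t ^ 2) (u' := 2 * w.im) (z := w) (by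
      have := hasDerivAt_pow 2 w.im
      simpa using this)
    refine (h1.add h2).congr_fderiv ?_
    unfold form
    module
  · refine ⟨2, 0, 0, 2, ?_, ?_, by norm_num⟩
    · exact hasFDerivAt_re (u := fun t => 2 * t) (by simpa using (hasDerivAt_id z.re).const_mul 2)
    · exact hasFDerivAt_im (u := fun t => 2 * t) (by simpa using (hasDerivAt_id z.im).const_mul 2)

lemma hasDerivAt_hh {t : ℝ} (ht : 0 < t) : HasDerivAt hh (-(1 / (2 * t))) t := by
  have h : HasDerivAt (fun t => 3 - 1 / 2 * Real.log t) (-(1 / 2 * t⁻¹)) t :=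
    ((Real.hasDerivAt_log ht.ne').const_mul (1 / 2)).const_sub 3
  exact h.congr_deriv (by field_simp)

lemma hasDerivAt_g1 {t : ℝ} (ht : 0 < t) (hh0 : 0 < hh t) : HasDerivAt g1 (g1' t) t := by
  have h1 : HasDerivAt (fun t => -(1 / 2) * Real.log t - Real.log (hh t))
      (-(1 / 2) * t⁻¹ - -(1 / (2 * t)) / hh t) t :=
    ((Real.hasDerivAt_log ht.ne').const_mul (-(1 / 2))).sub ((hasDerivAt_hh ht).log hh0.ne')
  exact h1.congr_deriv (by unfold g1'; field_simp; ring)

lemma hasDerivAt_neg_half_inv {t : ℝ} (ht : 0 < t) :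
    HasDerivAt (fun t => -(1 / (2 * t))) (1 / (2 * t ^ 2)) t := by
  have e : (fun t : ℝ => -(1 / (2 * t))) = fun t => -(1 / 2) * t⁻¹ := by
    ext s; ring
  rw [e]
  have h := (hasDerivAt_inv ht.ne').const_mul (-(1 / 2))
  exact h.congr_deriv (by field_simp)

lemma hasDerivAt_g1' {t : ℝ} (ht : 0 < t) (hh0 : 0 < hh t) : HasDerivAt g1' (g1'' t) t := by
  have h1 := hasDerivAt_neg_half_inv ht
  have h2 : HasDerivAt (fun t => 1 - 1 / hh t) (-(1 / (2 * t)) / hh t ^ 2) t := by
    have e : (fun t => 1 - 1 / hh t) = fun t => 1 - (hh t)⁻¹ := by ext s; ring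
    rw [e]
    have h : HasDerivAt (fun t => 1 - (hh t)⁻¹) (-(- -(1 / (2 * t)) / hh t ^ 2)) t :=
      ((hasDerivAt_hh ht).fun_inv hh0.ne').const_sub 1
    exact h.congr_deriv (by field_simp)
  have h3 : HasDerivAt (fun t => -(1 / (2 * t)) * (1 - 1 / hh t)) _ t := h1.mul h2
  exact h3.congr_deriv (by unfold g1''; field_simp; ring)

lemma hasDerivAt_g2 {t : ℝ} (ht : 0 < t) (hl : 0 < Real.log t) : HasDerivAt g2 (g2' t) t := by
  have h1 : HasDerivAt (fun t => -(1 / 2) * Real.log t - Real.log (Real.log t))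
      (-(1 / 2) * t⁻¹ - t⁻¹ / Real.log t) t :=
    ((Real.hasDerivAt_log ht.ne').const_mul (-(1 / 2))).sub
    ((Real.hasDerivAt_log ht.ne').log hl.ne')
  exact h1.congr_deriv (by unfold g2'; field_simp)

lemma hasDerivAt_g2' {t : ℝ} (ht : 0 < t) (hl : 0 < Real.log t) : HasDerivAt g2' (g2'' t) t := by
  have h1 := hasDerivAt_neg_half_inv ht
  have h2 : HasDerivAt (fun t => 1 / (t * Real.log t))
      (-((Real.log t + 1) / (t ^ 2 * Real.log t ^ 2))) t := by
    have e : (fun t => 1 / (t * Real.log t)) = fun t => (t * Real.log t)⁻¹ := by ext s; ring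
    rw [e]
    have h3 : HasDerivAt (fun t => t * Real.log t) (1 * Real.log t + t * t⁻¹) t :=
      (hasDerivAt_id' t).mul (Real.hasDerivAt_log ht.ne')
    have h4 := h3.fun_inv (mul_ne_zero ht.ne' hl.ne')
    exact h4.congr_deriv (by field_simp)
  have h3 : HasDerivAt (fun t => -(1 / (2 * t)) - 1 / (t * Real.log t)) _ t := h1.sub h2
  exact h3.congr_deriv (by unfold g2''; ring)

end Pool.Agent.Helper61
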