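import Mathlib
import Pool.Agent.Helper61.Liouville.Metric

/-!
Curvature of the explicit metric.
-/

namespace Pool.Agent.Helper61

open Complex Filter Topology Laplacian

noncomputable def phx (z : ℂ) : ℝ := g1' (FF z) * FFx z + g2' (qq z) * (2 * z.re)
noncomputable def phy (z : ℂ) : ℝ := g1' (FF z) * FFy z + g2' (qq z) * (2 * z.im)

/-- The Laplacian of `F`. -/
noncomputable def LF (z : ℂ) : ℝ :=
  2 / 3 - 4 / 3 * (al z.re + al z.im) + 2 * (al z.re * al z.im)

noncomputable def lapph (z : ℂ) : ℝ :=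
  (g1' (FF z) * LF z + g1'' (FF z) * (FFx z ^ 2 + FFy z ^ 2))
    + (g2' (qq z) * 4 + g2'' (qq z) * ((2 * z.re) ^ 2 + (2 * z.im) ^ 2))

lemma hh_FF_ge {z : ℂ} (hz : 0 < FF z) : 3 ≤ hh (FF z) := hh_ge hz (FF_le_one z)

lemma jet_ph {z : ℂ} (hz : 0 < FF z) : Jet ph phx phy (lapph z) z := by
  have h1 : ∀ᶠ t in 𝓝 (FF z), HasDerivAt g1 (g1' t) t := by
    have a1 : ∀ᶠ t in 𝓝 (FF z), 0 < t := lt_mem_nhds hz
    have a2 : ∀ᶠ t in 𝓝 (FF z), 0 < hh t :=
      (hasDerivAt_hh hz).continuousAt.eventually (lt_mem_nhds (by linarith [hh_FF_ge hz]))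
    filter_upwards [a1, a2] with t ht1 ht2 using hasDerivAt_g1 ht1 ht2
  have h2 : HasDerivAt g1' (g1'' (FF z)) (FF z) :=
    hasDerivAt_g1' hz (by linarith [hh_FF_ge hz])
  have h3 : ∀ᶠ t in 𝓝 (qq z), HasDerivAt g2 (g2' t) t := by
    have : ∀ᶠ t in 𝓝 (qq z), 1 < t := lt_mem_nhds (by linarith [qq_ge z])
    filter_upwards [this] with t ht using hasDerivAt_g2 (by linarith) (Real.log_pos ht)
  have h4 : HasDerivAt g2' (g2'' (qq z)) (qq z) :=
    hasDerivAt_g2' (by linarith [qq_ge z]) (by linarith [log_qq_ge z])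
  exact ((jet_FF z).comp h1 h2).add ((jet_qq z).comp h3 h4)

/-- `ρ² = q log² q`. -/
noncomputable def rho2 (z : ℂ) : ℝ := qq z * Real.log (qq z) ^ 2

lemma rho2_pos (z : ℂ) : 0 < rho2 z := by
  have h1 := qq_ge z
  have h2 := log_qq_ge z
  unfold rho2
  positivity

lemma exp_neg_two_ph {z : ℂ} (hz : 0 < FF z) :
    Real.exp (-2 * ph z) = FF z * hh (FF z) ^ 2 * rho2 z := by
  have h1 := qq_ge z
  have h2 := log_qq_ge z
  have h3 := hh_FF_ge hz
  have e : -2 * ph z = Real.log (FF z) + 2 * Real.log (hh (FF z))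
      + (Real.log (qq z) + 2 * Real.log (Real.log (qq z))) := by
    unfold ph g1 g2; ring
  have e2 : ∀ x : ℝ, 0 < x → Real.exp (2 * Real.log x) = x ^ 2 := by
    intro x hx
    rw [two_mul, Real.exp_add, Real.exp_log hx]; ring
  rw [e, Real.exp_add, Real.exp_add, Real.exp_add, Real.exp_log hz,
    Real.exp_log (by linarith), e2 _ (by linarith), e2 _ (by linarith)]
  rfl

/-- The remainder term. -/
noncomputable def DD (z : ℂ) : ℝ :=
  -(g2' (qq z) * 4 + g2'' (qq z) * (4 * (qq z - 100)))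

lemma DD_eq (z : ℂ) : DD z = (200 + 400 / Real.log (qq z)
    - 4 * (qq z - 100) / Real.log (qq z) ^ 2) / qq z ^ 2 := by
  have h1 := qq_ge z
  have h2 := log_qq_ge z
  have h3 : qq z ≠ 0 := by linarith
  have h4 : Real.log (qq z) ≠ 0 := by linarith
  unfold DD g2' g2''
  field_simp
  ring

lemma DD_le (z : ℂ) : DD z ≤ 1 / 25 := by
  have h1 := qq_ge z
  have h2 := log_qq_ge z
  rw [DD_eq, div_le_div_iff₀ (by positivity) (by norm_num)]
  have h5 : 400 / Real.log (qq z) ≤ 200 := by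
    rw [div_le_iff₀ (by linarith)]; linarith
  have h6 : 0 ≤ 4 * (qq z - 100) / Real.log (qq z) ^ 2 := by
    apply div_nonneg
    · linarith
    · positivity
  nlinarith

lemma le_DD (z : ℂ) : -(1 / 25) ≤ DD z := by
  have h1 := qq_ge z
  have h2 := log_qq_ge z
  rw [DD_eq, le_div_iff₀ (by positivity)]
  have h5 : 0 ≤ 400 / Real.log (qq z) := by
    apply div_nonneg
    · norm_num
    · linarith
  have h6 : 4 * (qq z - 100) / Real.log (qq z) ^ 2 ≤ qq z := by
    rw [div_le_iff₀ (by positivity)]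
    have h7 : 4 ≤ Real.log (qq z) ^ 2 := by nlinarith
    have h8 : qq z * 4 ≤ qq z * Real.log (qq z) ^ 2 :=
      mul_le_mul_of_nonneg_left h7 (by linarith)
    linarith
  nlinarith

/-- Normalised curvature. -/
noncomputable def kap (z : ℂ) : ℝ :=
  hh (FF z) * (hh (FF z) - 1) * ((FF z ^ 2 - (al z.re * al z.im) ^ 2) / 3) / (2 * FF z)
    + (FFx z ^ 2 + FFy z ^ 2) / (4 * FF z) - FF z * hh (FF z) ^ 2 * DD z

lemma grad_sq (z : ℂ) : FFx z ^ 2 + FFy z ^ 2
    = al z.re * (2 / 3 - al z.re) * (1 - al z.im) ^ 2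
      + al z.im * (2 / 3 - al z.im) * (1 - al z.re) ^ 2 := by
  unfold FFx FFy
  rw [mul_pow, mul_pow, sin3_sq, sin3_sq]

lemma curv_formula {z : ℂ} (hz : 0 < FF z) :
    Real.exp (-2 * ph z) * lapph z = rho2 z * kap z := by
  have h1 := qq_ge z
  have h2 := log_qq_ge z
  have h3 := hh_FF_ge hz
  have hid := grad_lap_identity (al z.re) (al z.im)
  rw [← grad_sq] at hid
  have hid' : ((FF z ^ 2 - (al z.re * al z.im) ^ 2) / 3)
      = (FFx z ^ 2 + FFy z ^ 2) - FF z * LF z := by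
    unfold LF; rw [FF]; linarith
  have e1 : g2' (qq z) * 4 + g2'' (qq z) * ((2 * z.re) ^ 2 + (2 * z.im) ^ 2) = -DD z := by
    unfold DD
    have : (2 * z.re) ^ 2 + (2 * z.im) ^ 2 = 4 * (qq z - 100) := by unfold qq; ring
    rw [this]; ring
  rw [exp_neg_two_ph hz]
  unfold lapph kap
  rw [e1, hid']
  unfold g1' g1''
  have h5 : hh (FF z) ≠ 0 := by linarith
  have h6 : FF z ≠ 0 := hz.ne'
  field_simp
  ring

lemma kap_lower {z : ℂ} (hz : 0 < FF z) : 1 / 6 ≤ kap z := by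
  apply kappa_lower hz (hh_FF_ge hz)
  · exact N_lower (al_nonneg _) (al_le _) (al_nonneg _) (al_le _)
  · rw [grad_sq]
    exact grad_lower (al_nonneg _) (al_le _) (al_nonneg _) (al_le _)
  · exact DD_le z

lemma kap_upper {z : ℂ} (hz : 0 < FF z) : kap z ≤ 3 := by
  apply kappa_upper hz (hh_FF_ge hz) (FH_sq_le hz (FF_le_one z))
  · exact N_upper _ _
  · rw [grad_sq]
    exact grad_upper (al_nonneg _) (al_le _) (al_nonneg _) (al_le _)
  · exact le_DD z

end Pool.Agent.Helper61
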