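import Mathlib

/-!
Conformal metrics `e^{2φ} (dx² + dy²)` on connected open subsets of the plane: curvature, area,
unit-speed geodesics, unstable Jacobi fields, the geometric potential and the Liouville measure.
-/

namespace Pool.Agent.Helper61

open MeasureTheory Laplacian
open scoped ContDiff

/-- A smooth Riemannian metric `e^{2φ} (dx² + dy²)` on a connected open subset `U` of the
plane `ℂ`. -/
structure ConfSurface where
  /-- The underlying connected open set. -/
  U : Set ℂ
  /-- The logarithm of the conformal factor. -/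
  φ : ℂ → ℝ
  isOpen : IsOpen U
  isConnected : IsConnected U
  smooth : ContDiffOn ℝ ∞ φ U

namespace ConfSurface

variable (S : ConfSurface)

/-- The Riemannian length of the tangent vector `v` at the point `z`. -/
noncomputable def len (z v : ℂ) : ℝ := Real.exp (S.φ z) * ‖v‖

/-- The unit tangent bundle, as a subset of `ℂ × ℂ` (base point, vector). -/
def unitTangent : Set (ℂ × ℂ) := {p | p.1 ∈ S.U ∧ S.len p.1 p.2 = 1}

/-- The Gaussian curvature `K = - e^{-2φ} Δφ` of the metric. -/
noncomputable def curvature (z : ℂ) : ℝ := -(Real.exp (-2 * S.φ z) * (Δ S.φ) z)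

/-- The Riemannian area measure `e^{2φ} dx dy` on `U`. -/
noncomputable def area : Measure ℂ :=
  (volume.restrict S.U).withDensity fun z => ENNReal.ofReal (Real.exp (2 * S.φ z))

/-- `γ` is a geodesic with velocity `w = γ'`, of unit speed and defined on all of `ℝ`: the
Levi-Civita geodesic equation of `e^{2φ} (dx² + dy²)` is
`γ'' = |γ'|² ∇φ - 2 ⟨∇φ, γ'⟩ γ'`. -/
structure IsUnitGeodesic (γ w : ℝ → ℂ) : Prop where
  mem : ∀ t, γ t ∈ S.U
  velocity : ∀ t, HasDerivAt γ (w t) t
  geodesic : ∀ t, HasDerivAt w
    ((‖w t‖ ^ 2) • gradient S.φ (γ t) - (2 * inner ℝ (gradient S.φ (γ t)) (w t)) • w t) t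
  unit : ∀ t, S.len (γ t) (w t) = 1

/-- `J = j N` is a perpendicular Jacobi field along `γ` (`N` the parallel unit normal field), with
covariant derivative `J' = j' N`: the Jacobi equation is `j'' = - K j`. -/
structure IsJacobi (γ : ℝ → ℂ) (j j' : ℝ → ℝ) : Prop where
  deriv : ∀ t, HasDerivAt j (j' t) t
  jacobi : ∀ t, HasDerivAt j' (-(S.curvature (γ t)) * j t) t

/-- Unstable Jacobi fields: nonzero perpendicular Jacobi fields that are bounded in the past.
Their initial values `(j(0), j'(0))` span the unstable line `E^u(v)`, `v = γ'(0)`. -/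
def IsUnstableJacobi (γ : ℝ → ℂ) (j j' : ℝ → ℝ) : Prop :=
  S.IsJacobi γ j j' ∧ (j 0 ≠ 0 ∨ j' 0 ≠ 0) ∧ ∃ C : ℝ, ∀ t ≤ 0, |j t| ≤ C

end ConfSurface

/-- The norm of the Sasaki metric of the unit tangent bundle: the vector of `T(T¹M)` with
perpendicular horizontal component `a N` and vertical component `b N` has norm `√(a² + b²)`. -/
noncomputable def sasakiNorm (a b : ℝ) : ℝ := √(a ^ 2 + b ^ 2)

/-- The norm on unstable lines that comes from the Riemannian metric of the horocycles: only the
horizontal component is measured. -/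
def horosphericalNorm (a _b : ℝ) : ℝ := |a|

namespace ConfSurface

variable (S : ConfSurface)

/-- `c` is the value at the unit vector `p` of the geometric potential
`φ^u(p) = - d/dt log |det (dg^t restricted to E^u(p))|` at `t = 0`. For `ξ = (j(0), j'(0))` in the
unstable line `E^u(p)` the vector `dg^t ξ` is `(j(t), j'(t))`, so the determinant is the quotient of
the norms of `(j(t), j'(t))` and `(j(0), j'(0))`. Norms of vectors of `T(T¹M)` are measured by
`N` (the standard choice is `N = sasakiNorm`). -/
def IsGeometricPotential (N : ℝ → ℝ → ℝ) (p : ℂ × ℂ) (c : ℝ) : Prop :=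
  ∃ (γ w : ℝ → ℂ) (j j' : ℝ → ℝ), S.IsUnitGeodesic γ w ∧ (γ 0, w 0) = p ∧
    S.IsUnstableJacobi γ j j' ∧
    HasDerivAt (fun t => -Real.log (N (j t) (j' t) / N (j 0) (j' 0))) c 0

open Classical in
/-- The geometric potential `φ^u`. -/
noncomputable def geometricPotential (N : ℝ → ℝ → ℝ) (p : ℂ × ℂ) : ℝ :=
  if h : ∃ c, S.IsGeometricPotential N p c then h.choose else 0

/-- Completeness: every unit vector is tangent to a geodesic defined on all of `ℝ`. -/
def IsComplete : Prop :=
  ∀ p ∈ S.unitTangent, ∃ γ w : ℝ → ℂ, S.IsUnitGeodesic γ w ∧ (γ 0, w 0) = p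

/-- The Riemannian volume of the unit tangent bundle: area measure times arc length on the unit
circles. -/
noncomputable def liouvilleVolume : Measure (ℂ × ℂ) :=
  (S.area.prod (volume.restrict (Set.Ioc 0 (2 * Real.pi)))).map
    fun p : ℂ × ℝ => (p.1, (Real.exp (-S.φ p.1) : ℂ) * Complex.exp (p.2 * Complex.I))

/-- The Liouville measure: the normalised Riemannian volume of the unit tangent bundle. -/
noncomputable def liouville : Measure (ℂ × ℂ) :=
  (S.liouvilleVolume Set.univ)⁻¹ • S.liouvilleVolume

end ConfSurface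

end Pool.Agent.Helper61
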