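import Mathlib
import Pool.Agent.Helper61.Liouville.Curv
import Pool.Agent.Helper61.Liouville.Defs

/-!
Smoothness and the surface.
-/

namespace Pool.Agent.Helper61

open Complex Filter Topology Laplacian
open scoped ContDiff

lemma contDiff_re {n : ℕ∞ω} : ContDiff ℝ n (fun z : ℂ => z.re) := Complex.reCLM.contDiff
lemma contDiff_im {n : ℕ∞ω} : ContDiff ℝ n (fun z : ℂ => z.im) := Complex.imCLM.contDiff

lemma contDiff_al {n : ℕ∞ω} : ContDiff ℝ n al := by
  unfold al
  exact (contDiff_const.sub Real.contDiff_cos).div_const 3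

lemma contDiff_FF {n : ℕ∞ω} : ContDiff ℝ n FF := by
  unfold FF
  exact ((contDiff_al.comp contDiff_re).add (contDiff_al.comp contDiff_im)).sub
    ((contDiff_al.comp contDiff_re).mul (contDiff_al.comp contDiff_im))

lemma contDiff_qq {n : ℕ∞ω} : ContDiff ℝ n qq := by
  unfold qq
  exact (contDiff_const.add (contDiff_re.pow 2)).add (contDiff_im.pow 2)

lemma contDiff_FFx {n : ℕ∞ω} : ContDiff ℝ n FFx := by
  unfold FFx
  exact ((Real.contDiff_sin.comp contDiff_re).div_const 3).mul
    (contDiff_const.sub (contDiff_al.comp contDiff_im))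

lemma contDiff_FFy {n : ℕ∞ω} : ContDiff ℝ n FFy := by
  unfold FFy
  exact ((Real.contDiff_sin.comp contDiff_im).div_const 3).mul
    (contDiff_const.sub (contDiff_al.comp contDiff_re))

section

variable {n : ℕ∞ω} {t : ℝ}

lemma contDiffAt_hh (ht : 0 < t) : ContDiffAt ℝ n hh t := by
  unfold hh
  exact contDiffAt_const.sub (contDiffAt_const.mul (Real.contDiffAt_log.2 ht.ne'))

lemma contDiffAt_g1 (ht : 0 < t) (h : 0 < hh t) : ContDiffAt ℝ n g1 t := by
  unfold g1
  exact (contDiffAt_const.mul (Real.contDiffAt_log.2 ht.ne')).sub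
    ((contDiffAt_hh ht).log h.ne')

lemma contDiffAt_g1' (ht : 0 < t) (h : 0 < hh t) : ContDiffAt ℝ n g1' t := by
  unfold g1'
  exact (contDiffAt_const.div (contDiffAt_const.mul contDiffAt_id) (by simpa using ht.ne')).neg.mul
    (contDiffAt_const.sub (contDiffAt_const.div (contDiffAt_hh ht) h.ne'))

lemma contDiffAt_g2 (ht : 1 < t) : ContDiffAt ℝ n g2 t := by
  unfold g2
  have h0 : t ≠ 0 := by linarith
  exact (contDiffAt_const.mul (Real.contDiffAt_log.2 h0)).sub
    ((Real.contDiffAt_log.2 h0).log (Real.log_pos ht).ne')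

lemma contDiffAt_g2' (ht : 1 < t) : ContDiffAt ℝ n g2' t := by
  unfold g2'
  have h0 : t ≠ 0 := by linarith
  exact (contDiffAt_const.div (contDiffAt_const.mul contDiffAt_id) (by simpa using h0)).neg.sub
    (contDiffAt_const.div (contDiffAt_id.mul (Real.contDiffAt_log.2 h0))
      (mul_ne_zero h0 (Real.log_pos ht).ne'))

end

variable {n : ℕ∞ω} {z : ℂ}

lemma contDiffAt_ph (hz : 0 < FF z) : ContDiffAt ℝ n ph z := by
  have h1 : 1 < qq z := by linarith [qq_ge z]
  have h2 : 0 < hh (FF z) := by linarith [hh_FF_ge hz]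
  unfold ph
  exact ((contDiffAt_g1 hz h2).comp z contDiff_FF.contDiffAt).add
    ((contDiffAt_g2 h1).comp z contDiff_qq.contDiffAt)

lemma contDiffAt_phx (hz : 0 < FF z) : ContDiffAt ℝ n phx z := by
  have h1 : 1 < qq z := by linarith [qq_ge z]
  have h2 : 0 < hh (FF z) := by linarith [hh_FF_ge hz]
  unfold phx
  exact (((contDiffAt_g1' hz h2).comp z contDiff_FF.contDiffAt).mul contDiff_FFx.contDiffAt).add
    (((contDiffAt_g2' h1).comp z contDiff_qq.contDiffAt).mul
      (contDiffAt_const.mul contDiff_re.contDiffAt))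

lemma contDiffAt_phy (hz : 0 < FF z) : ContDiffAt ℝ n phy z := by
  have h1 : 1 < qq z := by linarith [qq_ge z]
  have h2 : 0 < hh (FF z) := by linarith [hh_FF_ge hz]
  unfold phy
  exact (((contDiffAt_g1' hz h2).comp z contDiff_FF.contDiffAt).mul contDiff_FFy.contDiffAt).add
    (((contDiffAt_g2' h1).comp z contDiff_qq.contDiffAt).mul
      (contDiffAt_const.mul contDiff_im.contDiffAt))

lemma FF_eq_zero_iff (z : ℂ) : FF z = 0 ↔ Real.cos z.re = 1 ∧ Real.cos z.im = 1 := by
  have h1 := al_nonneg z.re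
  have h2 := al_nonneg z.im
  have h3 := al_le z.re
  constructor
  · intro h
    have h4 : al z.im * (1 - al z.re) = -al z.re := by unfold FF at h; linarith
    have h5 : 0 ≤ al z.im * (1 - al z.re) := mul_nonneg h2 (by linarith)
    have h6 : al z.re = 0 := by linarith
    have h7 : al z.im = 0 := by rw [h6] at h4; linarith
    unfold al at h6 h7
    constructor <;> linarith
  · rintro ⟨h4, h5⟩
    unfold FF al
    rw [h4, h5]
    ring

lemma countable_lattice : {z : ℂ | FF z = 0}.Countable := by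
  have : {z : ℂ | FF z = 0} ⊆ Set.range (fun p : ℤ × ℤ => (⟨p.1 * (2 * Real.pi),
      p.2 * (2 * Real.pi)⟩ : ℂ)) := by
    intro z hz
    obtain ⟨h1, h2⟩ := (FF_eq_zero_iff z).1 hz
    rw [Real.cos_eq_one_iff] at h1 h2
    obtain ⟨k, hk⟩ := h1
    obtain ⟨l, hl⟩ := h2
    exact ⟨(k, l), Complex.ext hk hl⟩
  exact (Set.countable_range _).mono this

/-- The surface. -/
noncomputable def exSurf : ConfSurface where
  U := {z | 0 < FF z}
  φ := ph
  isOpen := isOpen_lt continuous_const (contDiff_FF (n := 0)).continuous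
  isConnected := by
    have h1 : {z : ℂ | 0 < FF z} = {z : ℂ | FF z = 0}ᶜ := by
      ext z
      simp only [Set.mem_ofPred_eq, Set.mem_compl_iff]
      constructor
      · intro h; exact h.ne'
      · intro h; exact lt_of_le_of_ne (FF_nonneg z) (Ne.symm h)
    rw [h1]
    exact countable_lattice.isConnected_compl_of_one_lt_rank (by simp)
  smooth := fun z hz => (contDiffAt_ph hz).contDiffWithinAt

lemma exSurf_curvature {z : ℂ} (hz : 0 < FF z) : exSurf.curvature z = -(rho2 z * kap z) := by
  change -(Real.exp (-2 * ph z) * (Δ ph) z) = _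
  rw [(jet_ph hz).laplacian, curv_formula hz]

lemma exSurf_gradient {z : ℂ} (hz : 0 < FF z) : gradient exSurf.φ z = (⟨phx z, phy z⟩ : ℂ) :=
  (jet_ph hz).gradient

end Pool.Agent.Helper61
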