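import Mathlib
import Pool.Agent.Helper61.Liouville.Smooth
import Pool.Agent.Helper61.Liouville.Ode

/-!
Cut-off geodesic field in the coordinates (base point, angle).
-/

namespace Pool.Agent.Helper61

open Complex Filter Topology Set
open scoped NNReal

/-- Smooth cut-off. -/
noncomputable def chi (δ B : ℝ) (z : ℂ) : ℝ :=
  Real.smoothTransition (FF z / δ - 1) * Real.smoothTransition (B - qq z)

lemma chi_nonneg (δ B : ℝ) (z : ℂ) : 0 ≤ chi δ B z :=
  mul_nonneg (Real.smoothTransition.nonneg _) (Real.smoothTransition.nonneg _)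

lemma chi_le_one (δ B : ℝ) (z : ℂ) : chi δ B z ≤ 1 :=
  mul_le_one₀ (Real.smoothTransition.le_one _) (Real.smoothTransition.nonneg _)
    (Real.smoothTransition.le_one _)

lemma chi_eq_zero {δ B : ℝ} {z : ℂ} (hδ : 0 < δ) (h : FF z ≤ δ) : chi δ B z = 0 := by
  unfold chi
  rw [Real.smoothTransition.zero_of_nonpos, zero_mul]
  rw [sub_nonpos, div_le_one hδ]
  exact h

lemma chi_eq_one {δ B : ℝ} {z : ℂ} (hδ : 0 < δ) (h : 2 * δ ≤ FF z) (h2 : qq z ≤ B - 1) :
    chi δ B z = 1 := by
  unfold chi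
  rw [Real.smoothTransition.one_of_one_le, Real.smoothTransition.one_of_one_le, one_mul]
  · linarith
  · have : 2 ≤ FF z / δ := by rwa [le_div_iff₀ hδ]
    linarith

lemma contDiff_chi (δ B : ℝ) : ContDiff ℝ 1 (chi δ B) := by
  unfold chi
  exact (Real.smoothTransition.contDiff.comp ((contDiff_FF.div_const δ).sub contDiff_const)).mul
    (Real.smoothTransition.contDiff.comp (contDiff_const.sub contDiff_qq))

lemma qq_eq (z : ℂ) : qq z = 100 + ‖z‖ ^ 2 := by
  unfold qq
  rw [← Complex.normSq_eq_norm_sq, Complex.normSq_apply]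
  ring

lemma hasCompactSupport_chi (δ B : ℝ) : HasCompactSupport (chi δ B) := by
  apply HasCompactSupport.intro (isCompact_closedBall (0 : ℂ) (|B| + 1))
  intro z hz
  rw [mem_closedBall_zero_iff, not_le] at hz
  unfold chi
  rw [Real.smoothTransition.zero_of_nonpos (x := B - qq z), mul_zero]
  rw [qq_eq]
  have h1 : B ≤ |B| := le_abs_self B
  have h2 : 0 ≤ |B| := abs_nonneg B
  nlinarith

lemma cut_good {f : ℂ → ℝ} (hf : ∀ z, 0 < FF z → ContDiffAt ℝ 1 f z) {δ B : ℝ} (hδ : 0 < δ) :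
    ∃ K L : ℝ≥0, LipschitzWith K (fun z => chi δ B z * f z) ∧
      ∀ z, ‖chi δ B z * f z‖ ≤ L := by
  have h1 : ContDiff ℝ 1 (fun z => chi δ B z * f z) := by
    rw [contDiff_iff_contDiffAt]
    intro z
    by_cases hz : 0 < FF z
    · exact (contDiff_chi δ B).contDiffAt.mul (hf z hz)
    · have h2 : ∀ᶠ w in 𝓝 z, FF w < δ :=
        (contDiff_FF (n := 0)).continuous.continuousAt.eventually
          (gt_mem_nhds (by linarith))
      have h3 : (fun w => chi δ B w * f w) =ᶠ[𝓝 z] fun _ => 0 := by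
        filter_upwards [h2] with w hw
        rw [chi_eq_zero hδ hw.le, zero_mul]
      exact contDiffAt_const.congr_of_eventuallyEq h3
  have h2 : HasCompactSupport (fun z => chi δ B z * f z) := (hasCompactSupport_chi δ B).mul_right
  obtain ⟨K, hK⟩ := ContDiff.lipschitzWith_of_hasCompactSupport h2 h1 (by norm_num)
  obtain ⟨L, hL⟩ := h1.continuous.bounded_above_of_compact_support h2
  refine ⟨K, L.toNNReal, hK, fun z => (hL z).trans (Real.le_coe_toNNReal L)⟩

lemma lip_mul {E R : Type*} [PseudoMetricSpace E] [NormedRing R] {f g : E → R}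
    {Kf Kg Mf Mg : ℝ≥0} (hf : LipschitzWith Kf f) (hg : LipschitzWith Kg g)
    (bf : ∀ x, ‖f x‖ ≤ Mf) (bg : ∀ x, ‖g x‖ ≤ Mg) :
    LipschitzWith (Mf * Kg + Kf * Mg) (fun x => f x * g x) := by
  apply LipschitzWith.of_dist_le_mul
  intro x y
  rw [dist_eq_norm]
  have e : f x * g x - f y * g y = f x * (g x - g y) + (f x - f y) * g y := by noncomm_ring
  rw [e]
  have h1 := hf.dist_le_mul x y
  have h2 := hg.dist_le_mul x y
  rw [dist_eq_norm] at h1 h2
  calc ‖f x * (g x - g y) + (f x - f y) * g y‖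
      ≤ ‖f x‖ * ‖g x - g y‖ + ‖f x - f y‖ * ‖g y‖ :=
        (norm_add_le _ _).trans (add_le_add (norm_mul_le _ _) (norm_mul_le _ _))
    _ ≤ Mf * (Kg * dist x y) + (Kf * dist x y) * Mg := by
        gcongr
        · exact bf x
        · exact bg y
    _ = _ := by push_cast; ring

lemma lip_exp_I : LipschitzWith 1 (fun θ : ℝ => Complex.exp (θ * I)) := by
  apply LipschitzWith.of_dist_le_mul
  intro x y
  rw [dist_eq_norm, Real.dist_eq, NNReal.coe_one, one_mul]
  have e : Complex.exp (x * I) - Complex.exp (y * I)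
      = Complex.exp (y * I) * (Complex.exp (I * ((x - y : ℝ) : ℂ)) - 1) := by
    rw [mul_sub, mul_one, ← Complex.exp_add]
    congr 2
    push_cast
    ring
  rw [e, norm_mul, Complex.norm_exp_ofReal_mul_I, one_mul]
  have := Real.norm_exp_I_mul_ofReal_sub_one_le (x := x - y)
  simpa using this

/-- Cut-off geodesic field, `p = (z, θ)`. -/
noncomputable def VV (δ B : ℝ) (p : ℂ × ℝ) : ℂ × ℝ :=
  (((chi δ B p.1 * Real.exp (-ph p.1) : ℝ) : ℂ) * Complex.exp (p.2 * I),
    chi δ B p.1 * (Real.exp (-ph p.1) * phy p.1) * Real.cos p.2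
      - chi δ B p.1 * (Real.exp (-ph p.1) * phx p.1) * Real.sin p.2)

lemma VV_good {δ B : ℝ} (hδ : 0 < δ) :
    ∃ K L : ℝ≥0, LipschitzWith K (VV δ B) ∧ ∀ p, ‖VV δ B p‖ ≤ L := by
  obtain ⟨K1, L1, hK1, hL1⟩ := cut_good (f := fun z => Real.exp (-ph z)) (B := B)
    (fun z hz => (contDiffAt_ph hz).neg.exp) hδ
  obtain ⟨K2, L2, hK2, hL2⟩ := cut_good (f := fun z => Real.exp (-ph z) * phy z) (B := B)
    (fun z hz => (contDiffAt_ph hz).neg.exp.mul (contDiffAt_phy hz)) hδ
  obtain ⟨K3, L3, hK3, hL3⟩ := cut_good (f := fun z => Real.exp (-ph z) * phx z) (B := B)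
    (fun z hz => (contDiffAt_ph hz).neg.exp.mul (contDiffAt_phx hz)) hδ
  have hfst : LipschitzWith 1 (fun p : ℂ × ℝ => p.1) := LipschitzWith.prod_fst
  have hsnd : LipschitzWith 1 (fun p : ℂ × ℝ => p.2) := LipschitzWith.prod_snd
  have a1 : LipschitzWith K1 (fun p : ℂ × ℝ =>
      (((chi δ B p.1 * Real.exp (-ph p.1) : ℝ) : ℂ))) := by
    have h1 := hK1.comp hfst
    have h2 : LipschitzWith 1 (fun x : ℝ => (x : ℂ)) := Complex.isometry_ofReal.lipschitz
    have := h2.comp h1
    rw [mul_one, one_mul] at this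
    exact this
  have b1 : LipschitzWith 1 (fun p : ℂ × ℝ => Complex.exp (p.2 * I)) := by
    have := lip_exp_I.comp hsnd
    rw [mul_one] at this
    exact this
  have c1 := lip_mul a1 b1 (Mf := L1) (Mg := 1)
    (fun p => by rw [Complex.norm_real]; exact hL1 p.1)
    (fun p => by rw [Complex.norm_exp_ofReal_mul_I]; simp)
  have a2 : LipschitzWith K2 (fun p : ℂ × ℝ =>
      chi δ B p.1 * (Real.exp (-ph p.1) * phy p.1)) := by
    have h1 := hK2.comp hfst
    rw [mul_one] at h1
    exact h1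
  have a3 : LipschitzWith K3 (fun p : ℂ × ℝ =>
      chi δ B p.1 * (Real.exp (-ph p.1) * phx p.1)) := by
    have h1 := hK3.comp hfst
    rw [mul_one] at h1
    exact h1
  have b2 : LipschitzWith 1 (fun p : ℂ × ℝ => Real.cos p.2) := by
    have := Real.lipschitzWith_cos.comp hsnd
    rw [mul_one] at this
    exact this
  have b3 : LipschitzWith 1 (fun p : ℂ × ℝ => Real.sin p.2) := by
    have := Real.lipschitzWith_sin.comp hsnd
    rw [mul_one] at this
    exact this
  have c2 := lip_mul a2 b2 (Mf := L2) (Mg := 1) (fun p => hL2 p.1)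
    (fun p => by rw [Real.norm_eq_abs]; simpa using Real.abs_cos_le_one p.2)
  have c3 := lip_mul a3 b3 (Mf := L3) (Mg := 1) (fun p => hL3 p.1)
    (fun p => by rw [Real.norm_eq_abs]; simpa using Real.abs_sin_le_one p.2)
  have c4 := c2.sub c3
  refine ⟨_, max L1 (L2 + L3), c1.prodMk c4, fun p => ?_⟩
  rw [Prod.norm_def]
  apply max_le
  · unfold VV
    rw [norm_mul, Complex.norm_real, Complex.norm_exp_ofReal_mul_I, mul_one]
    refine (hL1 p.1).trans ?_
    exact_mod_cast le_max_left _ _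
  · have h1 : ‖(VV δ B p).2‖ ≤ L2 + L3 := by
      unfold VV
      refine (norm_sub_le _ _).trans (add_le_add ?_ ?_)
      · rw [norm_mul]
        refine (mul_le_mul (hL2 p.1) (Real.abs_cos_le_one p.2)
          (abs_nonneg _) (by positivity)).trans_eq (mul_one _)
      · rw [norm_mul]
        refine (mul_le_mul (hL3 p.1) (Real.abs_sin_le_one p.2)
          (abs_nonneg _) (by positivity)).trans_eq (mul_one _)
    refine h1.trans ?_
    exact_mod_cast le_max_right _ _

end Pool.Agent.Helper61
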