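import Mathlib
import Pool.Agent.Helper61.Liouville.Cutoff

/-!
A priori bounds along the (cut-off) geodesic field, and global existence.
-/

namespace Pool.Agent.Helper61

open Complex Filter Topology Set
open scoped NNReal

/-- `ρ = √q log q`. -/
noncomputable def rho (z : ℂ) : ℝ := √(qq z) * Real.log (qq z)

lemma qq_pos (z : ℂ) : 0 < qq z := by linarith [qq_ge z]

lemma sqrt_qq_ge (z : ℂ) : 10 ≤ √(qq z) := by
  apply Real.le_sqrt_of_sq_le
  linarith [qq_ge z]

lemma rho_sq (z : ℂ) : rho z ^ 2 = rho2 z := by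
  unfold rho rho2
  rw [mul_pow, Real.sq_sqrt (qq_pos z).le]

lemma rho_ge (z : ℂ) : 20 ≤ rho z := by
  unfold rho
  nlinarith [sqrt_qq_ge z, log_qq_ge z]

lemma rho_pos (z : ℂ) : 0 < rho z := by linarith [rho_ge z]

lemma exp_neg_ph {z : ℂ} (hz : 0 < FF z) :
    Real.exp (-ph z) = √(FF z) * hh (FF z) * rho z := by
  have h1 : Real.exp (-ph z) ^ 2 = (√(FF z) * hh (FF z) * rho z) ^ 2 := by
    rw [mul_pow, mul_pow, Real.sq_sqrt hz.le, rho_sq, ← exp_neg_two_ph hz, ← Real.exp_nat_mul]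
    congr 1
    push_cast
    ring
  have h2 := hh_FF_ge hz
  have h3 := rho_pos z
  have h4 : 0 ≤ √(FF z) * hh (FF z) * rho z := by positivity
  exact (pow_left_inj₀ (Real.exp_pos _).le h4 (by norm_num)).1 h1

lemma sqrtF_hh_le {z : ℂ} (hz : 0 < FF z) : √(FF z) * hh (FF z) ≤ 3 := by
  have h1 := FH_sq_le hz (FF_le_one z)
  have h2 := hh_FF_ge hz
  have h3 : (√(FF z) * hh (FF z)) ^ 2 ≤ 3 ^ 2 := by
    rw [mul_pow, Real.sq_sqrt hz.le]
    unfold hh
    linarith
  exact le_of_sq_le_sq h3 (by norm_num)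

lemma exp_neg_ph_le {z : ℂ} (hz : 0 < FF z) : Real.exp (-ph z) ≤ 3 * rho z := by
  rw [exp_neg_ph hz]
  exact mul_le_mul_of_nonneg_right (sqrtF_hh_le hz) (rho_pos z).le

lemma form_abs_le (a b : ℝ) (v : ℂ) : |form a b v| ≤ √(a ^ 2 + b ^ 2) * ‖v‖ := by
  have h1 : √(a ^ 2 + b ^ 2) * ‖v‖ = √((a ^ 2 + b ^ 2) * ‖v‖ ^ 2) := by
    rw [Real.sqrt_mul (by positivity), Real.sqrt_sq (norm_nonneg v)]
  rw [h1, form_apply]
  apply Real.abs_le_sqrt
  rw [← Complex.normSq_eq_norm_sq, Complex.normSq_apply]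
  nlinarith [sq_nonneg (a * v.im - b * v.re)]

lemma norm_VV_fst (δ B : ℝ) (p : ℂ × ℝ) :
    ‖(VV δ B p).1‖ = chi δ B p.1 * Real.exp (-ph p.1) := by
  unfold VV
  rw [norm_mul, Complex.norm_real, Complex.norm_exp_ofReal_mul_I, mul_one, Real.norm_eq_abs,
    abs_of_nonneg (mul_nonneg (chi_nonneg _ _ _) (Real.exp_pos _).le)]

lemma speed_le {δ B : ℝ} (hδ : 0 < δ) (p : ℂ × ℝ) : ‖(VV δ B p).1‖ ≤ 3 * rho p.1 := by
  rw [norm_VV_fst]
  by_cases hz : 0 < FF p.1
  · calc chi δ B p.1 * Real.exp (-ph p.1) ≤ 1 * Real.exp (-ph p.1) :=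
        mul_le_mul_of_nonneg_right (chi_le_one _ _ _) (Real.exp_pos _).le
      _ ≤ 3 * rho p.1 := by rw [one_mul]; exact exp_neg_ph_le hz
  · rw [chi_eq_zero hδ (by linarith), zero_mul]
    linarith [rho_pos p.1]

lemma speed_le' {δ B : ℝ} {p : ℂ × ℝ} (hz : 0 < FF p.1) :
    ‖(VV δ B p).1‖ ≤ √(FF p.1) * hh (FF p.1) * rho p.1 := by
  rw [norm_VV_fst]
  calc chi δ B p.1 * Real.exp (-ph p.1) ≤ 1 * Real.exp (-ph p.1) :=
        mul_le_mul_of_nonneg_right (chi_le_one _ _ _) (Real.exp_pos _).le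
    _ = _ := by rw [one_mul]; exact exp_neg_ph hz

section

variable {δ B : ℝ} {α : ℝ → ℂ × ℝ} (hα : ∀ t, HasDerivAt α (VV δ B (α t)) t)

include hα

lemma z_deriv (t : ℝ) : HasDerivAt (fun t => (α t).1) (VV δ B (α t)).1 t :=
  (ContinuousLinearMap.fst ℝ ℂ ℝ).hasFDerivAt.comp_hasDerivAt t (hα t)

lemma apriori_log (hδ : 0 < δ) (t : ℝ) :
    Real.log (qq (α t).1) ≤ Real.log (qq (α 0).1) * Real.exp (6 * |t|) := by
  set f : ℝ → ℝ := fun t => Real.log (Real.log (qq (α t).1)) with hf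
  set f' : ℝ → ℝ := fun t => form (2 * (α t).1.re) (2 * (α t).1.im) (VV δ B (α t)).1
    / qq (α t).1 / Real.log (qq (α t).1) with hf'
  have h1 : ∀ t, HasDerivAt f (f' t) t := by
    intro t
    have h0 : HasFDerivAt qq (form (2 * (α t).1.re) (2 * (α t).1.im)) (α t).1 :=
      (jet_qq (α t).1).first.self_of_nhds
    have h2 : HasDerivAt (fun t => qq (α t).1)
        (form (2 * (α t).1.re) (2 * (α t).1.im) (VV δ B (α t)).1) t :=
      HasFDerivAt.comp_hasDerivAt (l := qq) (f := fun t => (α t).1) t h0 (z_deriv hα t)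
    exact (h2.log (qq_pos _).ne').log (by linarith [log_qq_ge (α t).1])
  have h2 : ∀ t, |f' t| ≤ 6 := by
    intro t
    set z := (α t).1 with hz
    have hl := log_qq_ge z
    have hq := qq_pos z
    have hs := sqrt_qq_ge z
    rw [hf']
    simp only
    rw [abs_div, abs_div, abs_of_pos hq, abs_of_pos (by linarith : 0 < Real.log (qq z)),
      div_div, div_le_iff₀ (by positivity)]
    have h3 : √((2 * z.re) ^ 2 + (2 * z.im) ^ 2) ≤ 2 * √(qq z) := by
      rw [show (2 : ℝ) * √(qq z) = √(4 * qq z) by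
        rw [Real.sqrt_mul (by norm_num), show (4 : ℝ) = 2 ^ 2 by norm_num,
          Real.sqrt_sq (by norm_num)]]
      apply Real.sqrt_le_sqrt
      unfold qq
      nlinarith
    calc |form (2 * z.re) (2 * z.im) (VV δ B (α t)).1|
        ≤ √((2 * z.re) ^ 2 + (2 * z.im) ^ 2) * ‖(VV δ B (α t)).1‖ := form_abs_le _ _ _
      _ ≤ (2 * √(qq z)) * (3 * rho z) :=
          mul_le_mul h3 (speed_le hδ _) (norm_nonneg _) (by positivity)
      _ = 6 * ((√(qq z) * √(qq z)) * Real.log (qq z)) := by unfold rho; ring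
      _ = 6 * (qq z * Real.log (qq z)) := by rw [Real.mul_self_sqrt hq.le]
  have h3 := abs_sub_le_of_deriv_le (f := f) (f' := f') (C := 6) (T := |t|)
    (fun s _ => h1 s) (fun s _ => h2 s) (t := t) le_rfl
  have h4 : f t ≤ f 0 + 6 * |t| := by linarith [le_abs_self (f t - f 0)]
  have h5 : Real.log (qq (α t).1) = Real.exp (f t) := by
    rw [hf]; simp only
    rw [Real.exp_log (by linarith [log_qq_ge (α t).1])]
  have h6 : Real.log (qq (α 0).1) = Real.exp (f 0) := by
    rw [hf]; simp only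
    rw [Real.exp_log (by linarith [log_qq_ge (α 0).1])]
  rw [h5, h6, ← Real.exp_add]
  exact Real.exp_le_exp.2 h4

lemma apriori_F (hδ : 0 < δ) (h0 : δ < FF (α 0).1) (t : ℝ) : δ < FF (α t).1 := by
  by_contra hcon
  push Not at hcon
  obtain ⟨K, L, hK, -⟩ := VV_good (B := B) hδ
  have hzero : VV δ B (α t) = 0 := by
    unfold VV
    rw [chi_eq_zero hδ hcon]
    simp
  have h1 := ODE_solution_unique_univ (v := fun _ => VV δ B) (s := fun _ => univ) (K := K)
    (f := α) (g := fun _ => α t) (t₀ := t) (fun _ => hK.lipschitzOnWith)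
    (fun s => ⟨hα s, mem_univ _⟩)
    (fun s => ⟨by simpa [hzero] using hasDerivAt_const s (α t), mem_univ _⟩) rfl
  have h2 : α 0 = α t := congrFun h1 0
  rw [h2] at h0
  linarith

lemma apriori_H (hδ : 0 < δ) (h0 : δ < FF (α 0).1) {T R : ℝ}
    (hR : ∀ t, |t| ≤ T → rho (α t).1 ≤ R) {t : ℝ} (ht : |t| ≤ T) :
    hh (FF (α t).1) ≤ hh (FF (α 0).1) * Real.exp (R * |t|) := by
  have hF : ∀ t, 0 < FF (α t).1 := fun t => hδ.trans (apriori_F hα hδ h0 t)
  set f : ℝ → ℝ := fun t => Real.log (hh (FF (α t).1)) with hf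
  set f' : ℝ → ℝ := fun t => (-(1 / (2 * FF (α t).1)) *
    form (FFx (α t).1) (FFy (α t).1) (VV δ B (α t)).1) / hh (FF (α t).1) with hf'
  have h1 : ∀ t, HasDerivAt f (f' t) t := by
    intro t
    have h0 : HasFDerivAt FF (form (FFx (α t).1) (FFy (α t).1)) (α t).1 :=
      (jet_FF (α t).1).first.self_of_nhds
    have h2 : HasDerivAt (fun t => FF (α t).1)
        (form (FFx (α t).1) (FFy (α t).1) (VV δ B (α t)).1) t :=
      HasFDerivAt.comp_hasDerivAt (l := FF) (f := fun t => (α t).1) t h0 (z_deriv hα t)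
    have h3 := (hasDerivAt_hh (hF t)).comp t h2
    exact h3.log (by have := hh_FF_ge (hF t); simp only [Function.comp]; linarith)
  have h2 : ∀ t, |t| ≤ T → |f' t| ≤ R := by
    intro t ht
    refine le_trans ?_ (hR t ht)
    set z := (α t).1 with hz
    have hFz : 0 < FF z := hF t
    have hH := hh_FF_ge hFz
    have hr := rho_pos z
    rw [hf']
    simp only
    rw [abs_div, abs_mul, abs_neg, abs_of_pos (by positivity : 0 < 1 / (2 * FF z)),
      abs_of_pos (by linarith : 0 < hh (FF z)), div_le_iff₀ (by linarith)]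
    have h3 : √(FFx z ^ 2 + FFy z ^ 2) ≤ √(FF z) := by
      apply Real.sqrt_le_sqrt
      rw [grad_sq]
      have h4 := grad_upper (al_nonneg z.re) (al_le z.re) (al_nonneg z.im) (al_le z.im)
      have h5 : FF z = al z.re + al z.im - al z.re * al z.im := rfl
      rw [← h5] at h4
      linarith
    have h6 : |form (FFx z) (FFy z) (VV δ B (α t)).1|
        ≤ √(FF z) * (√(FF z) * hh (FF z) * rho z) :=
      (form_abs_le _ _ _).trans
        (mul_le_mul h3 (speed_le' hFz) (norm_nonneg _) (Real.sqrt_nonneg _))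
    have h7 : √(FF z) * (√(FF z) * hh (FF z) * rho z) = FF z * (rho z * hh (FF z)) := by
      have := Real.mul_self_sqrt hFz.le
      calc _ = (√(FF z) * √(FF z)) * (rho z * hh (FF z)) := by ring
        _ = _ := by rw [this]
    rw [h7] at h6
    calc 1 / (2 * FF z) * |form (FFx z) (FFy z) (VV δ B (α t)).1|
        ≤ 1 / (2 * FF z) * (FF z * (rho z * hh (FF z))) :=
          mul_le_mul_of_nonneg_left h6 (by positivity)
      _ = rho z * hh (FF z) / 2 := by field_simp
      _ ≤ rho z * hh (FF z) := by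
          have : 0 ≤ rho z * hh (FF z) := mul_nonneg hr.le (by linarith)
          linarith
  have h3 := abs_sub_le_of_deriv_le (f := f) (f' := f') (C := R) (T := T)
    (fun s _ => h1 s) h2 ht
  have h4 : f t ≤ f 0 + R * |t| := by linarith [le_abs_self (f t - f 0)]
  have h5 : ∀ s, hh (FF (α s).1) = Real.exp (f s) := by
    intro s
    rw [hf]; simp only
    rw [Real.exp_log (by linarith [hh_FF_ge (hF s)])]
  rw [h5, h5, ← Real.exp_add]
  exact Real.exp_le_exp.2 h4

end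

end Pool.Agent.Helper61
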