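import Mathlib

/-!
Averaging a periodic weight against a slowly varying function.
-/

namespace Pool.Agent.Helper61

open MeasureTheory Set
open scoped ENNReal

lemma period_lintegral {T : ℝ} (hT : 0 < T) {w : ℝ → ℝ≥0∞} (hper : Function.Periodic w T)
    (a x : ℝ) : ∫⁻ v in Ioc 0 T, w (x + v) = ∫⁻ v in Ioc a (a + T), w v := by
  have h1 : ∫⁻ v in Ioc 0 T, w (x + v) = ∫⁻ v in Ioc x (x + T), w v := by
    rw [← lintegral_indicator measurableSet_Ioc, ← lintegral_indicator measurableSet_Ioc,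
      ← lintegral_add_left_eq_self (fun v => (Ioc x (x + T)).indicator w v) x]
    apply lintegral_congr
    intro v
    by_cases hv : v ∈ Ioc 0 T
    · have hv' : x + v ∈ Ioc x (x + T) := ⟨by linarith [hv.1], by linarith [hv.2]⟩
      rw [indicator_of_mem hv, indicator_of_mem hv']
    · have hv' : x + v ∉ Ioc x (x + T) := fun h => hv ⟨by linarith [h.1], by linarith [h.2]⟩
      rw [indicator_of_notMem hv, indicator_of_notMem hv']
  rw [h1]
  exact (isAddFundamentalDomain_Ioc hT x).setLIntegral_eq (isAddFundamentalDomain_Ioc hT a) w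
    (fun g y => hper.map_vadd_zmultiples g y)

lemma avg1 {T : ℝ} (hT : 0 < T) {w h : ℝ → ℝ≥0∞} (hw : Measurable w) (hh : Measurable h)
    (hper : Function.Periodic w T) {C : ℝ≥0∞}
    (hC : ∀ x v, v ∈ Ioc (0 : ℝ) T → h x ≤ C * h (x - v)) (a : ℝ) :
    ENNReal.ofReal T * ∫⁻ x, w x * h x ≤ C * (∫⁻ x in Ioc a (a + T), w x) * ∫⁻ x, h x := by
  have h0 : ENNReal.ofReal T * ∫⁻ x, w x * h x = ∫⁻ x, ∫⁻ v in Ioc 0 T, w x * h x := by
    have hwh : Measurable fun x => w x * h x := hw.mul hh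
    rw [← lintegral_const_mul _ hwh]
    apply lintegral_congr
    intro x
    rw [lintegral_const, Measure.restrict_apply_univ, Real.volume_Ioc, sub_zero, mul_comm]
  have h1 : ∫⁻ x, ∫⁻ v in Ioc 0 T, w x * h x ≤ ∫⁻ x, ∫⁻ v in Ioc 0 T, C * (w x * h (x - v)) := by
    apply lintegral_mono
    intro x
    apply setLIntegral_mono' measurableSet_Ioc
    intro v hv
    calc w x * h x ≤ w x * (C * h (x - v)) := mul_le_mul_right (hC x v hv) _
      _ = C * (w x * h (x - v)) := by ring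
  have hm : Measurable (Function.uncurry fun x v => C * (w x * h (x - v))) := by
    apply Measurable.const_mul
    exact (hw.comp measurable_fst).mul (hh.comp (measurable_fst.sub measurable_snd))
  have h2 : ∫⁻ x, ∫⁻ v in Ioc 0 T, C * (w x * h (x - v))
      = ∫⁻ v in Ioc 0 T, ∫⁻ x, C * (w x * h (x - v)) :=
    lintegral_lintegral_swap hm.aemeasurable
  have h3 : ∀ v, ∫⁻ x, C * (w x * h (x - v)) = ∫⁻ x, C * (w (x + v) * h x) := by
    intro v
    rw [← lintegral_add_right_eq_self (fun x => C * (w x * h (x - v))) v]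
    simp
  have h4 : ∫⁻ v in Ioc 0 T, ∫⁻ x, C * (w (x + v) * h x)
      = ∫⁻ x, ∫⁻ v in Ioc 0 T, C * (w (x + v) * h x) := by
    refine lintegral_lintegral_swap (f := fun v x => C * (w (x + v) * h x)) ?_
    apply Measurable.aemeasurable
    apply Measurable.const_mul
    exact (hw.comp (measurable_snd.add measurable_fst)).mul (hh.comp measurable_snd)
  have h5 : ∀ x, ∫⁻ v in Ioc 0 T, C * (w (x + v) * h x)
      = C * (∫⁻ x in Ioc a (a + T), w x) * h x := by
    intro x
    have e : ∀ v, C * (w (x + v) * h x) = (C * h x) * w (x + v) := fun v => by ring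
    have hwx : Measurable fun v => w (x + v) := hw.comp (measurable_const.add measurable_id)
    simp only [e]
    rw [lintegral_const_mul _ hwx, period_lintegral hT hper a x]
    ring
  calc ENNReal.ofReal T * ∫⁻ x, w x * h x
      = ∫⁻ x, ∫⁻ v in Ioc 0 T, w x * h x := h0
    _ ≤ ∫⁻ x, ∫⁻ v in Ioc 0 T, C * (w x * h (x - v)) := h1
    _ = ∫⁻ v in Ioc 0 T, ∫⁻ x, C * (w x * h (x - v)) := h2
    _ = ∫⁻ v in Ioc 0 T, ∫⁻ x, C * (w (x + v) * h x) := by simp only [h3]
    _ = ∫⁻ x, ∫⁻ v in Ioc 0 T, C * (w (x + v) * h x) := h4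
    _ = ∫⁻ x, C * (∫⁻ x in Ioc a (a + T), w x) * h x := by simp only [h5]
    _ = _ := lintegral_const_mul _ hh

lemma avg2 {T : ℝ} (hT : 0 < T) {w h : ℝ → ℝ → ℝ≥0∞} (hw : Measurable (Function.uncurry w))
    (hh : Measurable (Function.uncurry h)) (hper1 : ∀ y, Function.Periodic (fun x => w x y) T)
    (hper2 : ∀ x, Function.Periodic (w x) T) {C : ℝ≥0∞}
    (hC1 : ∀ y x v, v ∈ Ioc (0 : ℝ) T → h x y ≤ C * h (x - v) y)
    (hC2 : ∀ x y v, v ∈ Ioc (0 : ℝ) T → h x y ≤ C * h x (y - v)) (a : ℝ) :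
    ENNReal.ofReal T * (ENNReal.ofReal T * ∫⁻ x, ∫⁻ y, w x y * h x y)
      ≤ C * (C * (∫⁻ x in Ioc a (a + T), ∫⁻ y in Ioc a (a + T), w x y) * ∫⁻ x, ∫⁻ y, h x y) := by
  have hW : Measurable fun x => ∫⁻ y in Ioc a (a + T), w x y :=
    hw.lintegral_prod_right'
  have hH : Measurable fun x => ∫⁻ y, h x y := hh.lintegral_prod_right'
  have hwh : Measurable fun x => ∫⁻ y, w x y * h x y := (hw.mul hh).lintegral_prod_right'
  have h1 : ENNReal.ofReal T * ∫⁻ x, ∫⁻ y, w x y * h x y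
      ≤ C * ∫⁻ x, (∫⁻ y in Ioc a (a + T), w x y) * ∫⁻ y, h x y := by
    have hWH : Measurable fun x => (∫⁻ y in Ioc a (a + T), w x y) * ∫⁻ y, h x y := hW.mul hH
    rw [← lintegral_const_mul _ hwh, ← lintegral_const_mul _ hWH]
    apply lintegral_mono
    intro x
    have := avg1 hT (w := w x) (h := h x) (hw.of_uncurry_left) (hh.of_uncurry_left) (hper2 x)
      (hC2 x) a
    simpa [mul_assoc] using this
  have h2 := avg1 hT hW hH (C := C) (fun x => by simp only [fun y => hper1 y x])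
    (fun x v hv => by
      rw [← lintegral_const_mul _ hh.of_uncurry_left]
      exact lintegral_mono fun y => hC1 y x v hv) a
  calc ENNReal.ofReal T * (ENNReal.ofReal T * ∫⁻ x, ∫⁻ y, w x y * h x y)
      ≤ ENNReal.ofReal T * (C * ∫⁻ x, (∫⁻ y in Ioc a (a + T), w x y) * ∫⁻ y, h x y) :=
        mul_le_mul_right h1 _
    _ = C * (ENNReal.ofReal T * ∫⁻ x, (∫⁻ y in Ioc a (a + T), w x y) * ∫⁻ y, h x y) := by ring
    _ ≤ _ := mul_le_mul_right h2 _

end Pool.Agent.Helper61
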