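import Mathlib
import Pool.Agent.Helper61.Liouville.Apriori
import Pool.Agent.Helper61.Liouville.Average

/-!
The area of the explicit surface is finite, and `∫ ρ dA = ∞`.
-/

namespace Pool.Agent.Helper61

open MeasureTheory Set Filter Topology
open scoped ENNReal

lemma lintegral_complex {f : ℂ → ℝ≥0∞} (hf : Measurable f) :
    ∫⁻ z, f z = ∫⁻ x : ℝ, ∫⁻ y : ℝ, f ⟨x, y⟩ := by
  have h1 := (Complex.volume_preserving_equiv_real_prod.symm).lintegral_comp_emb
    Complex.measurableEquivRealProd.symm.measurableEmbedding f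
  rw [← h1, Measure.volume_eq_prod, lintegral_prod]
  · rfl
  · exact (hf.comp Complex.measurableEquivRealProd.symm.measurable).aemeasurable

/-- The periodic weight `1/(F H²)`. -/
noncomputable def ww (z : ℂ) : ℝ := 1 / (FF z * hh (FF z) ^ 2)

lemma measurable_FF : Measurable FF := (contDiff_FF (n := 0)).continuous.measurable
lemma measurable_qq : Measurable qq := (contDiff_qq (n := 0)).continuous.measurable

lemma measurable_hh : Measurable hh := by
  unfold hh
  fun_prop

lemma measurable_ww : Measurable ww := by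
  unfold ww
  exact (measurable_const).div (measurable_FF.mul ((measurable_hh.comp measurable_FF).pow_const 2))

lemma measurable_rho2 : Measurable rho2 := by
  unfold rho2
  exact measurable_qq.mul ((Real.measurable_log.comp measurable_qq).pow_const 2)

lemma measurable_rho : Measurable rho := by
  unfold rho
  exact (measurable_qq.sqrt).mul (Real.measurable_log.comp measurable_qq)

lemma measurable_ph : Measurable ph := by
  unfold ph g1 g2
  have h1 := measurable_FF
  have h2 := measurable_qq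
  have h3 := measurable_hh.comp h1
  have h4 : Measurable fun z => hh (FF z) := h3
  fun_prop

lemma exp_two_ph {z : ℂ} (hz : 0 < FF z) : Real.exp (2 * ph z) = ww z * (1 / rho2 z) := by
  have h1 := exp_neg_two_ph hz
  have h2 : Real.exp (2 * ph z) = (Real.exp (-2 * ph z))⁻¹ := by
    rw [← Real.exp_neg]; congr 1; ring
  rw [h2, h1]
  unfold ww
  rw [mul_inv, one_div, one_div]

/-- Slow variation of `ρ²`. -/
lemma rho2_slow {z z' : ℂ} (h : qq z' ≤ 2 * qq z) : 1 / rho2 z ≤ 8 * (1 / rho2 z') := by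
  have h1 := qq_ge z
  have h2 := log_qq_ge z
  have h1' := qq_ge z'
  have h2' := log_qq_ge z'
  have h3 : Real.log (qq z') ≤ 2 * Real.log (qq z) := by
    have h4 : Real.log (qq z') ≤ Real.log (2 * qq z) := Real.log_le_log (qq_pos z') h
    have h5 : Real.log (2 * qq z) = Real.log 2 + Real.log (qq z) :=
      Real.log_mul (by norm_num) (by linarith)
    have h6 := Real.log_two_lt_d9
    linarith
  have h4 : rho2 z' ≤ 8 * rho2 z := by
    unfold rho2
    have h5 : Real.log (qq z') ^ 2 ≤ (2 * Real.log (qq z)) ^ 2 :=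
      pow_le_pow_left₀ (by linarith) h3 2
    calc qq z' * Real.log (qq z') ^ 2 ≤ (2 * qq z) * (2 * Real.log (qq z)) ^ 2 :=
          mul_le_mul h h5 (by positivity) (by linarith)
      _ = _ := by ring
  rw [mul_one_div, div_le_div_iff₀ (rho2_pos z) (rho2_pos z')]
  linarith

lemma shift_sq {x v : ℝ} (hv : v ∈ Ioc 0 (2 * Real.pi)) : (x - v) ^ 2 ≤ 2 * x ^ 2 + 80 := by
  have hpi := Real.pi_lt_d2
  have hpi0 := Real.pi_pos
  have h1 : v ≤ 6.3 := by linarith [hv.2]
  have h2 : v ^ 2 ≤ 40 := by nlinarith [hv.1]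
  nlinarith [sq_nonneg (x + v)]

lemma periodic_al : Function.Periodic al (2 * Real.pi) := by
  intro t
  unfold al
  rw [Real.cos_add_two_pi]

lemma integrable_rho2_inv : Integrable (fun z : ℂ => 1 / rho2 z) := by
  have e : (fun z : ℂ => 1 / rho2 z)
      = fun z : ℂ => (fun r : ℝ => 1 / ((100 + r ^ 2) * Real.log (100 + r ^ 2) ^ 2)) ‖z‖ := by
    ext z
    unfold rho2
    rw [qq_eq]
  rw [e]
  refine (integrable_fun_norm_addHaar (volume : Measure ℂ)
    (f := fun r : ℝ => 1 / ((100 + r ^ 2) * Real.log (100 + r ^ 2) ^ 2))).2 ?_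
  simp only [Complex.finrank_real_complex, Nat.add_one_sub_one, pow_one, smul_eq_mul]
  have hd : ∀ x ∈ Ici (0 : ℝ), HasDerivAt (fun r : ℝ => -(1 / 2) * (Real.log (100 + r ^ 2))⁻¹)
      (x * (1 / ((100 + x ^ 2) * Real.log (100 + x ^ 2) ^ 2))) x := by
    intro x _
    have h1 : HasDerivAt (fun r : ℝ => 100 + r ^ 2) (2 * x) x := by
      have := (hasDerivAt_pow 2 x).const_add 100
      simpa using this
    have h0 : 0 < 100 + x ^ 2 := by positivity
    have hl : 0 < Real.log (100 + x ^ 2) := Real.log_pos (by nlinarith [sq_nonneg x])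
    have h2 := ((h1.log h0.ne').fun_inv hl.ne').const_mul (-(1 / 2))
    refine h2.congr_deriv ?_
    field_simp
  refine integrableOn_Ioi_deriv_of_nonneg' hd (l := -(1 / 2) * 0) ?_ ?_
  · intro x hx
    have h0 : 0 < 100 + x ^ 2 := by positivity
    exact mul_nonneg (le_of_lt hx) (by positivity)
  · apply Tendsto.const_mul
    apply Tendsto.inv_tendsto_atTop
    apply Real.tendsto_log_atTop.comp
    exact tendsto_atTop_add_const_left _ _ (tendsto_pow_atTop (by norm_num))

lemma lintegral_rho2_inv : ∫⁻ z : ℂ, ENNReal.ofReal (1 / rho2 z) < ⊤ :=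
  integrable_rho2_inv.lintegral_lt_top

/-- Lower bound for `F` on the fundamental square. -/
lemma FF_lower {z : ℂ} (hx : |z.re| ≤ Real.pi) (hy : |z.im| ≤ Real.pi) :
    4 / (9 * Real.pi ^ 2) * ‖z‖ ^ 2 ≤ FF z := by
  have hpi := Real.pi_pos
  have h1 := Real.cos_le_one_sub_mul_cos_sq hx
  have h2 := Real.cos_le_one_sub_mul_cos_sq hy
  have h3 : 2 / (3 * Real.pi ^ 2) * z.re ^ 2 ≤ al z.re := by
    unfold al
    have : 2 / (3 * Real.pi ^ 2) * z.re ^ 2 = 2 / Real.pi ^ 2 * z.re ^ 2 / 3 := by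
      field_simp
    linarith
  have h4 : 2 / (3 * Real.pi ^ 2) * z.im ^ 2 ≤ al z.im := by
    unfold al
    have : 2 / (3 * Real.pi ^ 2) * z.im ^ 2 = 2 / Real.pi ^ 2 * z.im ^ 2 / 3 := by
      field_simp
    linarith
  have h5 : 2 / 3 * (al z.re + al z.im) ≤ FF z := by
    unfold FF
    nlinarith [al_nonneg z.re, al_nonneg z.im, al_le z.re, al_le z.im]
  have h6 : ‖z‖ ^ 2 = z.re ^ 2 + z.im ^ 2 := by
    rw [← Complex.normSq_eq_norm_sq, Complex.normSq_apply]; ring
  rw [h6]
  calc 4 / (9 * Real.pi ^ 2) * (z.re ^ 2 + z.im ^ 2)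
      = 2 / 3 * (2 / (3 * Real.pi ^ 2) * z.re ^ 2 + 2 / (3 * Real.pi ^ 2) * z.im ^ 2) := by
        field_simp; ring
    _ ≤ 2 / 3 * (al z.re + al z.im) := by linarith
    _ ≤ FF z := h5

lemma tH_mono : MonotoneOn (fun t => t * hh t ^ 2) (Ioc 0 1) := by
  have hd : ∀ t ∈ Ioc (0 : ℝ) 1, HasDerivAt (fun t => t * hh t ^ 2) (hh t ^ 2 - hh t) t := by
    intro t ht
    have h1 : HasDerivAt (fun t => t * hh t ^ 2)
        (1 * hh t ^ 2 + t * (((2 : ℕ) : ℝ) * hh t ^ (2 - 1) * -(1 / (2 * t)))) t :=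
      (hasDerivAt_id' t).mul ((hasDerivAt_hh ht.1).fun_pow 2)
    have ht0 := ht.1.ne'
    refine h1.congr_deriv ?_
    push_cast
    field_simp
    ring
  apply monotoneOn_of_deriv_nonneg (convex_Ioc _ _)
    (fun s hs => (hd s hs).continuousAt.continuousWithinAt)
    (fun s hs => (hd s (interior_subset hs)).differentiableAt.differentiableWithinAt)
  intro s hs
  have hs' := interior_subset hs
  rw [(hd s hs').deriv]
  have := hh_ge hs'.1 hs'.2
  nlinarith

noncomputable def cc : ℝ := 4 / (9 * Real.pi ^ 2)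

lemma cc_pos : 0 < cc := by unfold cc; positivity

lemma cc_le : cc ≤ 1 := by
  unfold cc
  rw [div_le_one (by positivity)]
  nlinarith [Real.pi_gt_three]

/-- The radial majorant. -/
noncomputable def gg (r : ℝ) : ℝ := 1 / (cc * r ^ 2 * hh (cc * r ^ 2) ^ 2)

lemma ww_le {z : ℂ} (hx : |z.re| ≤ Real.pi) (hy : |z.im| ≤ Real.pi) : ww z ≤ gg ‖z‖ := by
  unfold ww gg
  by_cases hz : z = 0
  · have : FF z = 0 := by rw [hz]; simp [FF, al]
    rw [this, hz]
    simp
  · have h1 : 0 < ‖z‖ := norm_pos_iff.2 hz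
    have h2 : cc * ‖z‖ ^ 2 ≤ FF z := FF_lower hx hy
    have h3 : 0 < cc * ‖z‖ ^ 2 := by have := cc_pos; positivity
    have h4 := tH_mono ⟨h3, h2.trans (FF_le_one z)⟩ ⟨h3.trans_le h2, FF_le_one z⟩ h2
    simp only at h4
    have h5 := hh_ge h3 (h2.trans (FF_le_one z))
    exact one_div_le_one_div_of_le (by positivity) h4

lemma log_five_lt : Real.log 5 < 3 := by
  rw [Real.log_lt_iff_lt_exp (by norm_num)]
  have h1 : Real.exp 3 = Real.exp 1 ^ 3 := by rw [← Real.exp_nat_mul]; norm_num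
  have h2 := Real.exp_one_gt_d9
  rw [h1]
  nlinarith [sq_nonneg (Real.exp 1 - 2)]

noncomputable def AA : ℝ := 3 - 1 / 2 * Real.log cc

lemma AA_ge : 3 ≤ AA := by
  unfold AA
  linarith [Real.log_nonpos cc_pos.le cc_le]

lemma hh_cc {r : ℝ} (hr : 0 < r) : hh (cc * r ^ 2) = AA - Real.log r := by
  unfold hh AA
  rw [Real.log_mul cc_pos.ne' (by positivity), Real.log_pow]
  push_cast
  ring

lemma integrableOn_gg : IntegrableOn (fun z : ℂ => gg ‖z‖) (Metric.ball 0 5) := by
  refine (integrableOn_fun_norm_addHaar (volume : Measure ℂ) (f := gg)).2 ?_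
  simp only [Complex.finrank_real_complex, Nat.add_one_sub_one, pow_one, smul_eq_mul]
  set Φ : ℝ → ℝ := fun y => if y = 0 then 0 else cc⁻¹ * (AA - Real.log y)⁻¹ with hΦ
  have hpos : ∀ y, 0 < y → y ≤ 5 → 0 < AA - Real.log y := by
    intro y hy hy5
    have h1 : Real.log y ≤ Real.log 5 := Real.log_le_log hy hy5
    linarith [AA_ge, log_five_lt]
  have hd : ∀ y ∈ Ioc (0 : ℝ) 5, HasDerivAt Φ (y * gg y) y := by
    intro y hy
    have h0 := hpos y hy.1 hy.2
    have h1 : HasDerivAt (fun y => cc⁻¹ * (AA - Real.log y)⁻¹)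
        (cc⁻¹ * (-(-y⁻¹) / (AA - Real.log y) ^ 2)) y :=
      (((Real.hasDerivAt_log hy.1.ne').const_sub AA).fun_inv h0.ne').const_mul _
    have h2 : Φ =ᶠ[𝓝 y] fun y => cc⁻¹ * (AA - Real.log y)⁻¹ := by
      filter_upwards [isOpen_ne.mem_nhds hy.1.ne'] with x hx
      have hx' : x ≠ 0 := hx
      simp [hΦ, hx']
    refine (h1.congr_of_eventuallyEq h2).congr_deriv ?_
    unfold gg
    rw [hh_cc hy.1]
    have := hy.1.ne'
    have := cc_pos.ne'
    field_simp
  have hcont : ContinuousOn Φ (Icc 0 5) := by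
    intro y hy
    rcases hy.1.eq_or_lt with h0 | h0
    · rw [← h0]
      have h1 : Tendsto (fun y => cc⁻¹ * (AA - Real.log y)⁻¹) (𝓝[>] 0) (𝓝 (cc⁻¹ * 0)) := by
        apply Tendsto.const_mul
        apply Tendsto.inv_tendsto_atTop
        apply tendsto_atTop_add_const_left
        exact tendsto_neg_atBot_atTop.comp Real.tendsto_log_nhdsGT_zero
      rw [mul_zero] at h1
      have h2 : Tendsto Φ (𝓝[>] 0) (𝓝 0) := by
        refine h1.congr' ?_
        filter_upwards [self_mem_nhdsWithin] with x hx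
        have hx' : x ≠ 0 := ne_of_gt hx
        simp [hΦ, hx']
      have h3 : ContinuousWithinAt Φ (Ici 0) 0 := by
        rw [← continuousWithinAt_Ioi_iff_Ici]
        unfold ContinuousWithinAt
        have : Φ 0 = 0 := by simp [hΦ]
        rw [this]
        exact h2
      exact h3.mono Icc_subset_Ici_self
    · exact (hd y ⟨h0, hy.2⟩).continuousAt.continuousWithinAt
  have h1 := intervalIntegral.integrableOn_deriv_of_nonneg hcont
    (fun y hy => hd y ⟨hy.1, hy.2.le⟩) (fun y hy => by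
      have h0 := hpos y hy.1 hy.2.le
      have := cc_pos
      have := hy.1
      unfold gg
      positivity)
  exact h1.mono_set Ioo_subset_Ioc_self

end Pool.Agent.Helper61
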