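import Mathlib
import Pool.Agent.Helper61.Liouville.Area

/-!
The area of the explicit surface is finite, and `∫ ρ dA = ∞`.
-/

namespace Pool.Agent.Helper61

open MeasureTheory Set Filter Topology
open scoped ENNReal

lemma norm_lt_five {z : ℂ} (hx : |z.re| ≤ Real.pi) (hy : |z.im| ≤ Real.pi) : ‖z‖ < 5 := by
  have h1 : ‖z‖ ^ 2 = z.re ^ 2 + z.im ^ 2 := by
    rw [← Complex.normSq_eq_norm_sq, Complex.normSq_apply]; ring
  have h2 := Real.pi_lt_d2
  have h3 : z.re ^ 2 ≤ Real.pi ^ 2 := by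
    rw [← sq_abs]; exact pow_le_pow_left₀ (abs_nonneg _) hx 2
  have h4 : z.im ^ 2 ≤ Real.pi ^ 2 := by
    rw [← sq_abs]; exact pow_le_pow_left₀ (abs_nonneg _) hy 2
  have h5 : ‖z‖ ^ 2 < 5 ^ 2 := by
    nlinarith [Real.pi_pos]
  exact lt_of_pow_lt_pow_left₀ 2 (by norm_num) h5

lemma measurable_gg : Measurable gg := by
  unfold gg
  have h1 : Measurable fun r : ℝ => cc * r ^ 2 := by fun_prop
  exact measurable_const.div (h1.mul ((measurable_hh.comp h1).pow_const 2))

/-- The weight has finite mass on the fundamental square. -/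
lemma W_lt_top : ∫⁻ x in Ioc (-Real.pi) (-Real.pi + 2 * Real.pi),
    ∫⁻ y in Ioc (-Real.pi) (-Real.pi + 2 * Real.pi), ENNReal.ofReal (ww ⟨x, y⟩) < ⊤ := by
  set G : ℂ → ℝ≥0∞ := (Metric.ball (0 : ℂ) 5).indicator fun z => ENNReal.ofReal (gg ‖z‖) with hG
  have hGm : Measurable G :=
    ((measurable_gg.comp measurable_norm).ennreal_ofReal).indicator measurableSet_ball
  have h1 : ∀ x ∈ Ioc (-Real.pi) (-Real.pi + 2 * Real.pi),
      ∀ y ∈ Ioc (-Real.pi) (-Real.pi + 2 * Real.pi), ENNReal.ofReal (ww ⟨x, y⟩) ≤ G ⟨x, y⟩ := by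
    intro x hx y hy
    have hx' : |(⟨x, y⟩ : ℂ).re| ≤ Real.pi := abs_le.2 ⟨hx.1.le, by simp only; linarith [hx.2]⟩
    have hy' : |(⟨x, y⟩ : ℂ).im| ≤ Real.pi := abs_le.2 ⟨hy.1.le, by simp only; linarith [hy.2]⟩
    have hb : (⟨x, y⟩ : ℂ) ∈ Metric.ball (0 : ℂ) 5 := by
      rw [mem_ball_zero_iff]; exact norm_lt_five hx' hy'
    rw [hG, indicator_of_mem hb]
    exact ENNReal.ofReal_le_ofReal (ww_le hx' hy')
  calc ∫⁻ x in Ioc (-Real.pi) (-Real.pi + 2 * Real.pi),
        ∫⁻ y in Ioc (-Real.pi) (-Real.pi + 2 * Real.pi), ENNReal.ofReal (ww ⟨x, y⟩)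
      ≤ ∫⁻ x in Ioc (-Real.pi) (-Real.pi + 2 * Real.pi),
        ∫⁻ y in Ioc (-Real.pi) (-Real.pi + 2 * Real.pi), G ⟨x, y⟩ :=
        setLIntegral_mono' measurableSet_Ioc fun x hx =>
          setLIntegral_mono' measurableSet_Ioc fun y hy => h1 x hx y hy
    _ ≤ ∫⁻ x in Ioc (-Real.pi) (-Real.pi + 2 * Real.pi), ∫⁻ y, G ⟨x, y⟩ :=
        lintegral_mono fun x => setLIntegral_le_lintegral _ _
    _ ≤ ∫⁻ x, ∫⁻ y, G ⟨x, y⟩ := setLIntegral_le_lintegral _ _
    _ = ∫⁻ z, G z := (lintegral_complex hGm).symm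
    _ = ∫⁻ z in Metric.ball (0 : ℂ) 5, ENNReal.ofReal (gg ‖z‖) :=
        lintegral_indicator measurableSet_ball _
    _ < ⊤ := integrableOn_gg.lintegral_lt_top

lemma ww_nonneg (z : ℂ) : 0 ≤ ww z := by
  unfold ww
  exact div_nonneg zero_le_one (mul_nonneg (FF_nonneg z) (sq_nonneg _))

lemma measurable_mk : Measurable fun p : ℝ × ℝ => (⟨p.1, p.2⟩ : ℂ) :=
  Complex.measurableEquivRealProd.symm.measurable

lemma weighted_lt_top : ∫⁻ z : ℂ, ENNReal.ofReal (ww z) * ENNReal.ofReal (1 / rho2 z) < ⊤ := by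
  have hm1 : Measurable fun z : ℂ => ENNReal.ofReal (ww z) := measurable_ww.ennreal_ofReal
  have hm2 : Measurable fun z : ℂ => ENNReal.ofReal (1 / rho2 z) :=
    (measurable_const.div measurable_rho2).ennreal_ofReal
  have hm12 : Measurable fun z : ℂ => ENNReal.ofReal (ww z) * ENNReal.ofReal (1 / rho2 z) :=
    hm1.mul hm2
  rw [lintegral_complex hm12]
  have hT : (0 : ℝ) < 2 * Real.pi := by positivity
  have h8 : ∀ {z z' : ℂ}, qq z' ≤ 2 * qq z →
      ENNReal.ofReal (1 / rho2 z) ≤ 8 * ENNReal.ofReal (1 / rho2 z') := by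
    intro z z' h
    have := rho2_slow h
    calc ENNReal.ofReal (1 / rho2 z) ≤ ENNReal.ofReal (8 * (1 / rho2 z')) :=
          ENNReal.ofReal_le_ofReal this
      _ = 8 * ENNReal.ofReal (1 / rho2 z') := by
          rw [ENNReal.ofReal_mul (by norm_num)]
          norm_num
  have key := avg2 hT (w := fun x y => ENNReal.ofReal (ww ⟨x, y⟩))
    (h := fun x y => ENNReal.ofReal (1 / rho2 ⟨x, y⟩)) (C := 8)
    (hm1.comp measurable_mk) (hm2.comp measurable_mk)
    (fun y x => by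
      simp only [ww, FF, periodic_al x])
    (fun x y => by
      simp only [ww, FF, periodic_al y])
    (fun y x v hv => h8 (by
      have := shift_sq (x := x) hv
      simp only [qq]
      nlinarith [sq_nonneg y]))
    (fun x y v hv => h8 (by
      have := shift_sq (x := y) hv
      simp only [qq]
      nlinarith [sq_nonneg x])) (-Real.pi)
  have hh1 : ∫⁻ x : ℝ, ∫⁻ y : ℝ, ENNReal.ofReal (1 / rho2 ⟨x, y⟩) < ⊤ := by
    rw [← lintegral_complex hm2]
    exact lintegral_rho2_inv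
  have hfin : ENNReal.ofReal (2 * Real.pi) * (ENNReal.ofReal (2 * Real.pi) *
      ∫⁻ x : ℝ, ∫⁻ y : ℝ, ENNReal.ofReal (ww ⟨x, y⟩) * ENNReal.ofReal (1 / rho2 ⟨x, y⟩)) < ⊤ := by
    refine key.trans_lt ?_
    exact ENNReal.mul_lt_top (by simp) (ENNReal.mul_lt_top
      (ENNReal.mul_lt_top (by simp) W_lt_top) hh1)
  have hne : ENNReal.ofReal (2 * Real.pi) ≠ 0 := by
    rw [ne_eq, ENNReal.ofReal_eq_zero, not_le]; exact hT
  by_contra hcon
  rw [not_lt, top_le_iff] at hcon
  rw [hcon, ENNReal.mul_top hne, ENNReal.mul_top hne] at hfin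
  exact lt_irrefl _ hfin

lemma rho_le (z : ℂ) : rho z ≤ 2 * qq z := by
  unfold rho
  have h1 := qq_pos z
  have h2 := sqrt_qq_ge z
  have h3 : Real.log (qq z) = 2 * Real.log (√(qq z)) := by
    rw [Real.log_sqrt h1.le]; ring
  have h4 : Real.log (√(qq z)) ≤ √(qq z) := (Real.log_le_sub_one_of_pos (by linarith)).trans
    (by linarith)
  have h5 := Real.mul_self_sqrt h1.le
  rw [h3]
  nlinarith

/-- `∫ 1/ρ = ∞`. -/
lemma lintegral_rho_inv {c : ℝ} (hc : 0 < c) :
    ∫⁻ z : ℂ, ENNReal.ofReal (c * (1 / rho z)) = ⊤ := by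
  have h1 : ¬ Integrable (fun z : ℂ => c * (1 / (2 * qq z))) := by
    intro h
    have e : (fun z : ℂ => c * (1 / (2 * qq z)))
        = fun z : ℂ => (fun r : ℝ => c * (1 / (2 * (100 + r ^ 2)))) ‖z‖ := by
      ext z
      rw [qq_eq]
    rw [e] at h
    have h2 := (integrable_fun_norm_addHaar (volume : Measure ℂ)
      (f := fun r : ℝ => c * (1 / (2 * (100 + r ^ 2))))).1 h
    simp only [Complex.finrank_real_complex, Nat.add_one_sub_one, pow_one, smul_eq_mul] at h2
    have h3 : IntegrableOn (fun y : ℝ => y * (c * (1 / (2 * (100 + y ^ 2))))) (Ioi 1) :=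
      h2.mono_set (Ioi_subset_Ioi zero_le_one)
    have h4 : IntegrableOn (fun y : ℝ => (202 / c) * (y * (c * (1 / (2 * (100 + y ^ 2))))))
        (Ioi 1) := h3.const_mul _
    have h5 : IntegrableOn (fun y : ℝ => y⁻¹) (Ioi 1) := by
      refine Integrable.mono' h4 (measurable_inv.aestronglyMeasurable) ?_
      rw [ae_restrict_iff' measurableSet_Ioi]
      refine Eventually.of_forall fun y hy => ?_
      have hy1 : (1 : ℝ) < y := hy
      have hy0 : 0 < y := by linarith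
      rw [Real.norm_eq_abs, abs_of_pos (by positivity)]
      have e2 : (202 / c) * (y * (c * (1 / (2 * (100 + y ^ 2))))) = 101 * y / (100 + y ^ 2) := by
        field_simp; norm_num
      rw [e2, inv_eq_one_div, div_le_div_iff₀ hy0 (by positivity)]
      nlinarith
    exact not_integrableOn_Ioi_inv h5
  have hm : Measurable fun z : ℂ => c * (1 / (2 * qq z)) :=
    measurable_const.mul (measurable_const.div (measurable_const.mul measurable_qq))
  have h2 : ∫⁻ z : ℂ, ENNReal.ofReal (c * (1 / (2 * qq z))) = ⊤ := by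
    by_contra hcon
    exact h1 ((lintegral_ofReal_ne_top_iff_integrable hm.aestronglyMeasurable
      (Eventually.of_forall fun z => by
        have := qq_pos z
        simp only [Pi.zero_apply]
        positivity)).1 hcon)
  rw [← top_le_iff, ← h2]
  apply lintegral_mono
  intro z
  apply ENNReal.ofReal_le_ofReal
  apply mul_le_mul_of_nonneg_left _ hc.le
  exact one_div_le_one_div_of_le (rho_pos z) (rho_le z)

end Pool.Agent.Helper61
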