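import Mathlib
import Pool.Agent.Helper61.Liouville.Apriori

/-!
Global existence of geodesics of the explicit surface, and uniqueness.
-/

namespace Pool.Agent.Helper61

open Complex Filter Topology Set
open scoped NNReal

/-- The geodesic field, `p = (z, θ)`. -/
noncomputable def YY (p : ℂ × ℝ) : ℂ × ℝ :=
  (((Real.exp (-ph p.1) : ℝ) : ℂ) * Complex.exp (p.2 * I),
    (Real.exp (-ph p.1) * phy p.1) * Real.cos p.2 - (Real.exp (-ph p.1) * phx p.1) * Real.sin p.2)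

lemma VV_eq_YY {δ B : ℝ} {p : ℂ × ℝ} (h : chi δ B p.1 = 1) : VV δ B p = YY p := by
  unfold VV YY
  rw [h]
  simp only [one_mul]

noncomputable def lmax (z : ℂ) (n : ℕ) : ℝ := Real.log (qq z) * Real.exp (6 * n)
noncomputable def Rmax (z : ℂ) (n : ℕ) : ℝ := √(Real.exp (lmax z n)) * lmax z n
noncomputable def Hmax (z : ℂ) (n : ℕ) : ℝ := hh (FF z) * Real.exp (Rmax z n * n)
noncomputable def dmin (z : ℂ) (n : ℕ) : ℝ := Real.exp (6 - 2 * Hmax z n) / 2
noncomputable def Bmax (z : ℂ) (n : ℕ) : ℝ := Real.exp (lmax z n) + 1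

lemma dmin_pos (z : ℂ) (n : ℕ) : 0 < dmin z n := by unfold dmin; positivity

lemma lmax_nonneg (z : ℂ) (n : ℕ) : 0 ≤ lmax z n :=
  mul_nonneg (by linarith [log_qq_ge z]) (Real.exp_pos _).le

lemma Rmax_nonneg (z : ℂ) (n : ℕ) : 0 ≤ Rmax z n :=
  mul_nonneg (Real.sqrt_nonneg _) (lmax_nonneg z n)

lemma F_of_hh {F H : ℝ} (hF : 0 < F) (h : hh F ≤ H) : Real.exp (6 - 2 * H) ≤ F := by
  rw [← Real.le_log_iff_exp_le hF]
  unfold hh at h
  linarith

lemma dmin_lt {z : ℂ} (hz : 0 < FF z) (n : ℕ) : dmin z n < FF z := by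
  have h0 := hh_FF_ge hz
  have h1 : hh (FF z) ≤ Hmax z n := by
    unfold Hmax
    have : 1 ≤ Real.exp (Rmax z n * n) :=
      Real.one_le_exp (mul_nonneg (Rmax_nonneg z n) (by positivity))
    nlinarith
  have h2 := F_of_hh hz h1
  have h3 := Real.exp_pos (6 - 2 * Hmax z n)
  unfold dmin
  linarith

lemma stay {δ B : ℝ} (hδ : 0 < δ) {α : ℝ → ℂ × ℝ} (hα : ∀ t, HasDerivAt α (VV δ B (α t)) t)
    {z : ℂ} (hz : (α 0).1 = z) (h0 : δ < FF z) {n : ℕ} {t : ℝ} (ht : |t| ≤ n) :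
    chi (dmin z n) (Bmax z n) (α t).1 = 1 := by
  have hl : ∀ s, |s| ≤ (n : ℝ) → Real.log (qq (α s).1) ≤ lmax z n := by
    intro s hs
    have h1 := apriori_log hα hδ s
    rw [hz] at h1
    refine h1.trans ?_
    unfold lmax
    have h2 : 0 ≤ Real.log (qq z) := by linarith [log_qq_ge z]
    gcongr
  have hq : ∀ s, |s| ≤ (n : ℝ) → qq (α s).1 ≤ Real.exp (lmax z n) := by
    intro s hs
    rw [← Real.log_le_iff_le_exp (qq_pos _)]
    exact hl s hs
  have hr : ∀ s, |s| ≤ (n : ℝ) → rho (α s).1 ≤ Rmax z n := by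
    intro s hs
    unfold rho Rmax
    have h2 : 0 ≤ Real.log (qq (α s).1) := by linarith [log_qq_ge (α s).1]
    exact mul_le_mul (Real.sqrt_le_sqrt (hq s hs)) (hl s hs) h2 (Real.sqrt_nonneg _)
  have hH := apriori_H hα hδ (by rw [hz]; exact h0) hr ht
  rw [hz] at hH
  have hFt : 0 < FF (α t).1 := hδ.trans (apriori_F hα hδ (by rw [hz]; exact h0) t)
  apply chi_eq_one (dmin_pos z n)
  · have h3 : hh (FF (α t).1) ≤ Hmax z n := by
      refine hH.trans ?_
      unfold Hmax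
      have h4 : 0 ≤ hh (FF z) := by linarith [hh_FF_ge (hδ.trans h0)]
      have h5 := Rmax_nonneg z n
      gcongr
    have := F_of_hh hFt h3
    unfold dmin
    linarith
  · have := hq t ht
    unfold Bmax
    linarith

lemma flow_exists {p0 : ℂ × ℝ} (h0 : 0 < FF p0.1) :
    ∃ α : ℝ → ℂ × ℝ, α 0 = p0 ∧ (∀ t, 0 < FF (α t).1) ∧ ∀ t, HasDerivAt α (YY (α t)) t := by
  set z := p0.1 with hz
  have h1 : ∀ n : ℕ, ∃ α : ℝ → ℂ × ℝ, α 0 = p0 ∧
      ∀ t, HasDerivAt α (VV (dmin z n) (Bmax z n) (α t)) t := by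
    intro n
    obtain ⟨K, L, hK, hL⟩ := VV_good (B := Bmax z n) (dmin_pos z n)
    exact ode_global (fun _ => VV (dmin z n) (Bmax z n))
      (fun T => ⟨K, L, fun _ _ => hK, fun _ _ => hL⟩) (fun x => continuous_const) p0
  choose α hα0 hα using h1
  have hstay : ∀ n m : ℕ, ∀ t, |t| ≤ (n : ℝ) →
      chi (dmin z n) (Bmax z n) (α m t).1 = 1 := by
    intro n m t ht
    exact stay (dmin_pos z m) (hα m) (z := z) (by rw [hα0]) (dmin_lt h0 m) ht
  have hsol : ∀ n m : ℕ, n ≤ m → ∀ t, |t| ≤ (n : ℝ) →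
      HasDerivAt (α m) (VV (dmin z n) (Bmax z n) (α m t)) t := by
    intro n m hnm t ht
    have h2 := hα m t
    rw [VV_eq_YY (hstay m m t (ht.trans (by exact_mod_cast hnm)))] at h2
    rw [VV_eq_YY (hstay n m t ht)]
    exact h2
  have hag : ∀ n m : ℕ, n ≤ m → ∀ t : ℝ, |t| < n → α m t = α n t := by
    intro n m hnm t ht
    obtain ⟨K, L, hK, -⟩ := VV_good (B := Bmax z n) (dmin_pos z n)
    have hn : (0 : ℝ) < n := lt_of_le_of_lt (abs_nonneg t) ht
    have := ODE_solution_unique_of_mem_Ioo (v := fun _ => VV (dmin z n) (Bmax z n))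
      (s := fun _ => univ) (K := K)
      (a := -(n : ℝ)) (b := n) (t₀ := 0) (f := α m) (g := α n)
      (fun s hs => hK.lipschitzOnWith)
      ⟨by linarith, hn⟩
      (fun s hs => ⟨hsol n m hnm s (abs_lt.2 hs).le, mem_univ _⟩)
      (fun s hs => ⟨hsol n n le_rfl s (abs_lt.2 hs).le, mem_univ _⟩)
      (by rw [hα0, hα0])
    exact this (abs_lt.1 ht)
  obtain ⟨β, hβ⟩ := glue α hag
  refine ⟨β, ?_, fun t => ?_, fun t => ?_⟩
  · rw [hβ 1 0 (by simp), hα0]
  · obtain ⟨n, hn⟩ := exists_nat_gt |t|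
    rw [hβ n t hn]
    by_contra hcon
    have h2 := hstay n n t hn.le
    rw [chi_eq_zero (dmin_pos z n) (by linarith [dmin_pos z n])] at h2
    norm_num at h2
  · obtain ⟨n, hn⟩ := exists_nat_gt |t|
    have h2 : β =ᶠ[𝓝 t] α n := by
      filter_upwards [abs_lt_mem_nhds hn] with s hs using hβ n s hs
    rw [h2.hasDerivAt_iff, hβ n t hn, ← VV_eq_YY (hstay n n t hn.le)]
    exact hα n t

end Pool.Agent.Helper61
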