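import Mathlib
import Pool.Agent.Helper61.Liouville.Flow

/-!
Completeness of the explicit surface, uniqueness of geodesics.
-/

namespace Pool.Agent.Helper61

open Complex Filter Topology Set
open scoped NNReal

lemma inner_mk (a b : ℝ) (w : ℂ) : inner ℝ (⟨a, b⟩ : ℂ) w = a * w.re + b * w.im := by
  rw [Complex.inner]
  simp
  ring

lemma exp_ph_mul_norm (z v : ℂ) : exSurf.len z v = 1 ↔ ‖v‖ = Real.exp (-ph z) := by
  change Real.exp (ph z) * ‖v‖ = 1 ↔ _
  rw [Real.exp_neg]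
  constructor
  · intro h
    rw [← one_div, eq_div_iff (Real.exp_pos _).ne', mul_comm]
    exact h
  · intro h
    rw [h, mul_inv_cancel₀ (Real.exp_pos _).ne']

lemma re_mul_exp (a θ : ℝ) : (((a : ℝ) : ℂ) * Complex.exp (θ * I)).re = a * Real.cos θ := by
  rw [Complex.re_ofReal_mul, Complex.exp_ofReal_mul_I_re]

lemma im_mul_exp (a θ : ℝ) : (((a : ℝ) : ℂ) * Complex.exp (θ * I)).im = a * Real.sin θ := by
  rw [Complex.im_ofReal_mul, Complex.exp_ofReal_mul_I_im]

lemma geod_of_flow {α : ℝ → ℂ × ℝ} (hF : ∀ t, 0 < FF (α t).1)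
    (hα : ∀ t, HasDerivAt α (YY (α t)) t) :
    exSurf.IsUnitGeodesic (fun t => (α t).1)
      (fun t => ((Real.exp (-ph (α t).1) : ℝ) : ℂ) * Complex.exp ((α t).2 * I)) := by
  have hz : ∀ t, HasDerivAt (fun t => (α t).1) (YY (α t)).1 t := fun t =>
    (ContinuousLinearMap.fst ℝ ℂ ℝ).hasFDerivAt.comp_hasDerivAt t (hα t)
  have hth : ∀ t, HasDerivAt (fun t => (α t).2) (YY (α t)).2 t := fun t =>
    (ContinuousLinearMap.snd ℝ ℂ ℝ).hasFDerivAt.comp_hasDerivAt t (hα t)
  constructor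
  · exact hF
  · intro t
    exact hz t
  · intro t
    have h0 : HasFDerivAt ph (form (phx (α t).1) (phy (α t).1)) (α t).1 :=
      (jet_ph (hF t)).first.self_of_nhds
    have h1 : HasDerivAt (fun t => ph (α t).1)
        (form (phx (α t).1) (phy (α t).1) (YY (α t)).1) t :=
      HasFDerivAt.comp_hasDerivAt (l := ph) (f := fun t => (α t).1) t h0 (hz t)
    have h2 := h1.neg.exp
    have h3 := (hth t).ofReal_comp.mul_const I
    have h4 := h3.cexp
    have h5 := h2.ofReal_comp.mul h4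
    refine h5.congr_deriv ?_
    rw [exSurf_gradient (hF t), inner_mk]
    set z := (α t).1 with hzdef
    set θ := (α t).2 with hθ
    have hn : ‖((Real.exp (-ph z) : ℝ) : ℂ) * Complex.exp (θ * I)‖ = Real.exp (-ph z) := by
      rw [norm_mul, Complex.norm_exp_ofReal_mul_I, mul_one, Complex.norm_real, Real.norm_eq_abs,
        abs_of_pos (Real.exp_pos _)]
    rw [hn, form_apply]
    have hre : (YY (α t)).1.re = Real.exp (-ph z) * Real.cos θ := re_mul_exp _ _
    have him : (YY (α t)).1.im = Real.exp (-ph z) * Real.sin θ := im_mul_exp _ _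
    have h2' : (YY (α t)).2 = (Real.exp (-ph z) * phy z) * Real.cos θ
      - (Real.exp (-ph z) * phx z) * Real.sin θ := rfl
    rw [hre, him, h2']
    change (((Real.exp (-ph z) * -(phx z * (Real.exp (-ph z) * Real.cos θ)
      + phy z * (Real.exp (-ph z) * Real.sin θ)) : ℝ) : ℂ) * Complex.exp (θ * I)
      + ((Real.exp (-ph z) : ℝ) : ℂ) * (Complex.exp (θ * I) *
        (((Real.exp (-ph z) * phy z * Real.cos θ - Real.exp (-ph z) * phx z * Real.sin θ : ℝ) : ℂ)
          * I))) = _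
    set a := Real.exp (-ph z) with ha
    have hcs := Real.sin_sq_add_cos_sq θ
    have hs : Real.sin θ ^ 2 = 1 - Real.cos θ ^ 2 := by linarith
    apply Complex.ext
    · simp only [Complex.add_re, Complex.sub_re, Complex.mul_re, Complex.mul_im, Complex.ofReal_re,
        Complex.ofReal_im, Complex.I_re, Complex.I_im, Complex.exp_ofReal_mul_I_re,
        Complex.exp_ofReal_mul_I_im, Complex.real_smul]
      linear_combination (a ^ 2 * phx z) * hcs
    · simp only [Complex.add_im, Complex.sub_im, Complex.mul_re, Complex.mul_im, Complex.ofReal_re,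
        Complex.ofReal_im, Complex.I_re, Complex.I_im, Complex.exp_ofReal_mul_I_re,
        Complex.exp_ofReal_mul_I_im, Complex.real_smul]
      linear_combination (a ^ 2 * phy z) * hcs
  · intro t
    rw [exp_ph_mul_norm, norm_mul, Complex.norm_exp_ofReal_mul_I, mul_one, Complex.norm_real,
      Real.norm_eq_abs, abs_of_pos (Real.exp_pos _)]

lemma exSurf_complete : exSurf.IsComplete := by
  rintro ⟨z, v⟩ ⟨hz, hv⟩
  obtain ⟨α, hα0, hF, hα⟩ := flow_exists (p0 := (z, Complex.arg v)) hz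
  refine ⟨_, _, geod_of_flow hF hα, ?_⟩
  rw [hα0]
  rw [exp_ph_mul_norm] at hv
  simp only at hv ⊢
  rw [← hv, Complex.norm_mul_exp_arg_mul_I]

/-- The geodesic field on `ℂ × ℂ`. -/
noncomputable def GX (p : ℂ × ℂ) : ℂ × ℂ :=
  (p.2, (‖p.2‖ ^ 2) • ((phx p.1 : ℂ) + (phy p.1 : ℂ) * I)
    - (2 * inner ℝ ((phx p.1 : ℂ) + (phy p.1 : ℂ) * I) p.2) • p.2)

lemma mk_eq (a b : ℝ) : (⟨a, b⟩ : ℂ) = (a : ℂ) + (b : ℂ) * I := by
  apply Complex.ext <;> simp

lemma contDiffAt_GX {p : ℂ × ℂ} (hp : 0 < FF p.1) : ContDiffAt ℝ 1 GX p := by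
  have h1 : ContDiffAt ℝ 1 (fun p : ℂ × ℂ => (phx p.1 : ℂ) + (phy p.1 : ℂ) * I) p := by
    have a1 : ContDiffAt ℝ 1 (fun p : ℂ × ℂ => phx p.1) p :=
      ContDiffAt.comp (g := phx) p (contDiffAt_phx hp) contDiffAt_fst
    have a2 : ContDiffAt ℝ 1 (fun p : ℂ × ℂ => phy p.1) p :=
      ContDiffAt.comp (g := phy) p (contDiffAt_phy hp) contDiffAt_fst
    have b1 : ContDiffAt ℝ 1 (fun p : ℂ × ℂ => (phx p.1 : ℂ)) p :=
      Complex.ofRealCLM.contDiff.contDiffAt.comp p a1
    have b2 : ContDiffAt ℝ 1 (fun p : ℂ × ℂ => (phy p.1 : ℂ)) p :=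
      Complex.ofRealCLM.contDiff.contDiffAt.comp p a2
    exact b1.add (b2.mul contDiffAt_const)
  have h2 : ContDiffAt ℝ 1 (fun p : ℂ × ℂ => p.2) p := contDiffAt_snd
  unfold GX
  exact h2.prodMk (((contDiff_norm_sq ℝ).contDiffAt.comp p h2).smul h1 |>.sub
    ((contDiffAt_const.mul (h1.inner ℝ h2)).smul h2))

lemma geod_GX {γ w : ℝ → ℂ} (h : exSurf.IsUnitGeodesic γ w) (t : ℝ) :
    HasDerivAt (fun t => (γ t, w t)) (GX (γ t, w t)) t := by
  have h1 := (h.velocity t).prodMk (h.geodesic t)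
  refine h1.congr_deriv ?_
  rw [exSurf_gradient (h.mem t), mk_eq]
  rfl

lemma geod_unique {γ w γ' w' : ℝ → ℂ} (h : exSurf.IsUnitGeodesic γ w)
    (h' : exSurf.IsUnitGeodesic γ' w') (h0 : (γ 0, w 0) = (γ' 0, w' 0)) : γ = γ' ∧ w = w' := by
  have h1 := ode_unique_open (X := GX) (Ω := {p | 0 < FF p.1}) (fun p hp => contDiffAt_GX hp)
    (geod_GX h) h.mem (geod_GX h') h0
  constructor
  · ext t
    exact congrArg Prod.fst (congrFun h1 t)
  · ext t
    exact congrArg Prod.snd (congrFun h1 t)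

end Pool.Agent.Helper61
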