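import Mathlib
import Pool.Agent.Helper61.Liouville.Ode

/-!
The scalar Jacobi equation `j'' = k j` with `k > 0`: existence, uniqueness and estimates of the
solutions bounded in the past.
-/

namespace Pool.Agent.Helper61

open Filter Topology Set
open scoped NNReal

/-- Solutions of `j'' = k j`. -/
structure Jac (k : ℝ → ℝ) (j j' : ℝ → ℝ) : Prop where
  deriv : ∀ t, HasDerivAt j (j' t) t
  jacobi : ∀ t, HasDerivAt j' (k t * j t) t

lemma exists_bound {k : ℝ → ℝ} (hk : Continuous k) (T : ℝ) :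
    ∃ M : ℝ≥0, ∀ t ∈ Icc (-T) T, |k t| ≤ M := by
  obtain ⟨C, hC⟩ := isCompact_Icc.exists_bound_of_continuousOn (s := Icc (-T) T) hk.continuousOn
  refine ⟨C.toNNReal, fun t ht => (hC t ht).trans (Real.le_coe_toNNReal C)⟩

/-- The angle equation. -/
lemma angle_exists {k : ℝ → ℝ} (hk : Continuous k) (θ0 : ℝ) :
    ∃ θ : ℝ → ℝ, θ 0 = θ0 ∧ ∀ t, HasDerivAt θ ((1 + k t) * Real.cos (θ t) ^ 2 - k t) t := by
  refine ode_global (fun t x => (1 + k t) * Real.cos x ^ 2 - k t) (fun T => ?_) (fun x => ?_) θ0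
  · obtain ⟨M, hM⟩ := exists_bound hk T
    refine ⟨(1 + M) * 2, 1 + 2 * M, fun t ht => ?_, fun t ht x => ?_⟩
    · apply LipschitzWith.of_dist_le_mul
      intro a b
      have h1 : |Real.cos a - Real.cos b| ≤ |a - b| := by
        have := Real.lipschitzWith_cos.dist_le_mul a b
        simpa [Real.dist_eq] using this
      have h2 : |Real.cos a + Real.cos b| ≤ 2 := by
        have h3 := Real.abs_cos_le_one a
        have h4 := Real.abs_cos_le_one b
        exact (abs_add_le _ _).trans (by linarith)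
      have h3 : |1 + k t| ≤ 1 + M := by
        refine (abs_add_le _ _).trans ?_
        rw [abs_one]
        linarith [hM t ht]
      rw [Real.dist_eq, Real.dist_eq]
      have e : (1 + k t) * Real.cos a ^ 2 - k t - ((1 + k t) * Real.cos b ^ 2 - k t)
          = (1 + k t) * ((Real.cos a + Real.cos b) * (Real.cos a - Real.cos b)) := by ring
      rw [e, abs_mul, abs_mul]
      push_cast
      calc |1 + k t| * (|Real.cos a + Real.cos b| * |Real.cos a - Real.cos b|)
          ≤ (1 + M) * (2 * |a - b|) := by gcongr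
        _ = _ := by ring
    · have h1 := hM t ht
      have h2 := Real.abs_cos_le_one x
      have h3 : Real.cos x ^ 2 ≤ 1 := by rw [← sq_abs]; nlinarith [abs_nonneg (Real.cos x)]
      have h4 : |(1 + k t) * Real.cos x ^ 2| ≤ (1 + (M : ℝ)) * 1 := by
        rw [abs_mul, abs_of_nonneg (sq_nonneg (Real.cos x))]
        refine mul_le_mul ?_ h3 (sq_nonneg _) (by positivity)
        refine (abs_add_le _ _).trans ?_
        rw [abs_one]
        linarith
      change |(1 + k t) * Real.cos x ^ 2 - k t| ≤ ((1 + 2 * M : ℝ≥0) : ℝ)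
      push_cast
      have h5 := abs_sub ((1 + k t) * Real.cos x ^ 2) (k t)
      linarith
  · fun_prop

lemma jac_exists_angle {k : ℝ → ℝ} (hk : Continuous k) (θ0 : ℝ) :
    ∃ j j' : ℝ → ℝ, Jac k j j' ∧ j 0 = Real.sin θ0 ∧ j' 0 = Real.cos θ0 := by
  obtain ⟨θ, hθ0, hθ⟩ := angle_exists hk θ0
  have hcθ : Continuous θ := continuous_iff_continuousAt.2 fun t => (hθ t).continuousAt
  have hc : Continuous fun t => (1 + k t) * (Real.sin (θ t) * Real.cos (θ t)) := by fun_prop
  set R : ℝ → ℝ := fun t => ∫ s in (0 : ℝ)..t, (1 + k s) * (Real.sin (θ s) * Real.cos (θ s)) with hR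
  have hRd : ∀ t, HasDerivAt R ((1 + k t) * (Real.sin (θ t) * Real.cos (θ t))) t := fun t =>
    intervalIntegral.integral_hasDerivAt_right (hc.intervalIntegrable _ _)
      (hc.stronglyMeasurableAtFilter _ _) hc.continuousAt
  refine ⟨fun t => Real.exp (R t) * Real.sin (θ t), fun t => Real.exp (R t) * Real.cos (θ t),
    ⟨fun t => ?_, fun t => ?_⟩, ?_, ?_⟩
  · have h1 := (hRd t).exp.mul (hθ t).sin
    refine h1.congr_deriv ?_
    have := Real.sin_sq_add_cos_sq (θ t)
    have e : Real.sin (θ t) ^ 2 = 1 - Real.cos (θ t) ^ 2 := by linarith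
    linear_combination (Real.exp (R t) * (1 + k t) * Real.cos (θ t)) * e
  · have h1 := (hRd t).exp.mul (hθ t).cos
    refine h1.congr_deriv ?_
    ring
  · simp [hR, hθ0]
  · simp [hR, hθ0]

namespace Jac

variable {k j j' i i' : ℝ → ℝ}

lemma continuous (h : Jac k j j') : Continuous j :=
  continuous_iff_continuousAt.2 fun t => (h.deriv t).continuousAt

lemma continuous' (h : Jac k j j') : Continuous j' :=
  continuous_iff_continuousAt.2 fun t => (h.jacobi t).continuousAt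

lemma lin (h : Jac k j j') (g : Jac k i i') (a b : ℝ) :
    Jac k (fun t => a * j t + b * i t) (fun t => a * j' t + b * i' t) := by
  constructor
  · intro t
    exact ((h.deriv t).const_mul a).add ((g.deriv t).const_mul b)
  · intro t
    exact (((h.jacobi t).const_mul a).add ((g.jacobi t).const_mul b)).congr_deriv (by ring)

lemma wronskian (h : Jac k j j') (g : Jac k i i') (t : ℝ) :
    j t * i' t - j' t * i t = j 0 * i' 0 - j' 0 * i 0 := by
  have h1 : ∀ t, HasDerivAt (fun t => j t * i' t - j' t * i t) 0 t := fun t =>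
    (((h.deriv t).mul (g.jacobi t)).sub ((h.jacobi t).mul (g.deriv t))).congr_deriv (by ring)
  exact is_const_of_deriv_eq_zero (fun t => (h1 t).differentiableAt) (fun t => (h1 t).deriv) t 0

/-- `j j'` is nondecreasing. -/
lemma mul_mono (h : Jac k j j') (hk : ∀ t, 0 ≤ k t) : Monotone fun t => j t * j' t := by
  have h1 : ∀ t, HasDerivAt (fun t => j t * j' t) (j' t * j' t + j t * (k t * j t)) t := fun t =>
    (h.deriv t).mul (h.jacobi t)
  apply monotone_of_deriv_nonneg (fun t => (h1 t).differentiableAt)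
  intro t
  rw [(h1 t).deriv]
  have := hk t
  nlinarith [mul_self_nonneg (j' t), mul_nonneg this (mul_self_nonneg (j t))]

lemma hasDerivAt_sq (h : Jac k j j') (t : ℝ) :
    HasDerivAt (fun t => j t ^ 2) (2 * (j t * j' t)) t := by
  have := (h.deriv t).pow 2
  exact this.congr_deriv (by ring)

lemma sq_mono_right (h : Jac k j j') (hk : ∀ t, 0 ≤ k t) {a : ℝ} (ha : 0 ≤ j a * j' a) :
    MonotoneOn (fun t => j t ^ 2) (Ici a) := by
  apply monotoneOn_of_deriv_nonneg (convex_Ici a)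
    (fun t _ => (h.hasDerivAt_sq t).continuousAt.continuousWithinAt)
    (fun t _ => (h.hasDerivAt_sq t).differentiableAt.differentiableWithinAt)
  intro t ht
  rw [interior_Ici, mem_Ioi] at ht
  rw [(h.hasDerivAt_sq t).deriv]
  have := h.mul_mono hk ht.le
  simp only at this
  linarith

end Jac

/-- A pair of solutions with the standard initial values. -/
lemma jac_basis {k : ℝ → ℝ} (hk : Continuous k) : ∃ c c' s s' : ℝ → ℝ, Jac k c c' ∧ Jac k s s' ∧
    c 0 = 1 ∧ c' 0 = 0 ∧ s 0 = 0 ∧ s' 0 = 1 := by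
  obtain ⟨c, c', hc, hc0, hc0'⟩ := jac_exists_angle hk (Real.pi / 2)
  obtain ⟨s, s', hs, hs0, hs0'⟩ := jac_exists_angle hk 0
  rw [Real.sin_pi_div_two] at hc0
  rw [Real.cos_pi_div_two] at hc0'
  rw [Real.sin_zero] at hs0
  rw [Real.cos_zero] at hs0'
  exact ⟨c, c', s, s', hc, hs, hc0, hc0', hs0, hs0'⟩

namespace Jac

variable {k j j' i i' : ℝ → ℝ}

/-- Zero data at some time imply zero data at time `0`. -/
lemma zero_data (hk : Continuous k) (h : Jac k j j') {t : ℝ} (h1 : j t = 0) (h2 : j' t = 0) :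
    j 0 = 0 ∧ j' 0 = 0 := by
  obtain ⟨c, c', s, s', hc, hs, hc0, hc0', hs0, hs0'⟩ := jac_basis hk
  have e1 := h.wronskian hs t
  have e2 := h.wronskian hc t
  rw [h1, h2, hs0, hs0'] at e1
  rw [h1, h2, hc0, hc0'] at e2
  constructor <;> linarith

lemma zero_of_zero_data (hk : Continuous k) (h : Jac k j j') (h1 : j 0 = 0) (h2 : j' 0 = 0)
    (t : ℝ) : j t = 0 ∧ j' t = 0 := by
  obtain ⟨c, c', s, s', hc, hs, hc0, hc0', hs0, hs0'⟩ := jac_basis hk
  have e1 := h.wronskian hs t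
  have e2 := h.wronskian hc t
  have e3 := hc.wronskian hs t
  rw [h1, h2] at e1 e2
  rw [hc0, hc0', hs0, hs0'] at e3
  have e4 : c t * s' t - c' t * s t = 1 := by linarith
  constructor
  · linear_combination (-(j t)) * e4 + c t * e1 - s t * e2
  · linear_combination (-(j' t)) * e4 + c' t * e1 - s' t * e2

/-- A solution vanishing on an interval has zero data at time `0`. -/
lemma zero_of_zero_on (hk : Continuous k) (h : Jac k j j') {a b : ℝ} (hab : a < b)
    (h0 : ∀ t ∈ Ioo a b, j t = 0) : j 0 = 0 ∧ j' 0 = 0 := by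
  have hm : (a + b) / 2 ∈ Ioo a b := ⟨by linarith, by linarith⟩
  have h1 : j =ᶠ[𝓝 ((a + b) / 2)] fun _ => 0 := by
    filter_upwards [isOpen_Ioo.mem_nhds hm] with t ht using h0 t ht
  have h2 : HasDerivAt j 0 ((a + b) / 2) :=
    (hasDerivAt_const ((a + b) / 2) (0 : ℝ)).congr_of_eventuallyEq h1
  exact h.zero_data hk (h0 _ hm) ((h.deriv _).unique h2)

/-- The solution vanishing at `0` with derivative `1` does not vanish in the past. -/
lemma ne_zero_of_neg (hk : Continuous k) (hk0 : ∀ t, 0 ≤ k t) (h : Jac k j j') (h1 : j 0 = 0)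
    (h2 : j' 0 = 1) {t : ℝ} (ht : t < 0) : j t ≠ 0 := by
  intro h3
  have hm := h.sq_mono_right hk0 (a := t) (by rw [h3, zero_mul])
  have h4 : ∀ s ∈ Ioo t 0, j s = 0 := by
    intro s hs
    have h5 := hm (mem_Ici.2 hs.1.le) (mem_Ici.2 ht.le) hs.2.le
    simp only [h1] at h5
    nlinarith [sq_nonneg (j s)]
  have h5 := (h.zero_of_zero_on hk ht h4).2
  rw [h2] at h5
  norm_num at h5

/-- Existence of a solution bounded in the past. -/
lemma exists_bounded (hk : Continuous k) (hk0 : ∀ t, 0 ≤ k t) :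
    ∃ j j' : ℝ → ℝ, Jac k j j' ∧ j 0 = 1 ∧ ∀ t ≤ 0, |j t| ≤ 1 := by
  obtain ⟨c, c', s, s', hc, hs, hc0, hc0', hs0, hs0'⟩ := jac_basis hk
  set A : ℕ → Set ℝ := fun n => {a | ∀ t ∈ Icc (-(n + 1 : ℝ)) 0, |c t + a * s t| ≤ 1} with hA
  have hclosed : ∀ n, IsClosed (A n) := by
    intro n
    have : A n = ⋂ t ∈ Icc (-(n + 1 : ℝ)) 0, {a | |c t + a * s t| ≤ 1} := by
      ext a
      simp [hA]
    rw [this]
    refine isClosed_biInter fun t _ => isClosed_le ?_ continuous_const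
    fun_prop
  have hs1 : s (-1) ≠ 0 := hs.ne_zero_of_neg hk hk0 hs0 hs0' (by norm_num)
  have hcomp : IsCompact (A 0) := by
    refine (isCompact_Icc (a := -((1 + |c (-1)|) / |s (-1)|)) (b := (1 + |c (-1)|) / |s (-1)|)).of_isClosed_subset
      (hclosed 0) ?_
    intro a ha
    have h1 := ha (-1) ⟨by norm_num, by norm_num⟩
    have h2 : |a| * |s (-1)| ≤ 1 + |c (-1)| := by
      rw [← abs_mul]
      have h3 : a * s (-1) = (c (-1) + a * s (-1)) - c (-1) := by ring
      rw [h3]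
      exact (abs_sub _ _).trans (by linarith)
    have h3 : |a| ≤ (1 + |c (-1)|) / |s (-1)| := by
      rwa [le_div_iff₀ (abs_pos.2 hs1)]
    exact abs_le.1 h3
  have hanti : ∀ n, A (n + 1) ⊆ A n := by
    intro n a ha t ht
    refine ha t ⟨?_, ht.2⟩
    push_cast
    linarith [ht.1]
  have hne : ∀ n, (A n).Nonempty := by
    intro n
    have hn : -(n + 1 : ℝ) < 0 := by
      have : (0 : ℝ) ≤ n := Nat.cast_nonneg n
      linarith
    have hsn := hs.ne_zero_of_neg hk hk0 hs0 hs0' hn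
    refine ⟨-c (-(n + 1 : ℝ)) / s (-(n + 1 : ℝ)), fun t ht => ?_⟩
    set a := -c (-(n + 1 : ℝ)) / s (-(n + 1 : ℝ)) with ha
    have hj := hc.lin hs 1 a
    have h0 : c (-(n + 1 : ℝ)) + a * s (-(n + 1 : ℝ)) = 0 := by
      rw [ha]; field_simp; ring
    have hm := hj.sq_mono_right hk0 (a := -(n + 1 : ℝ)) (by
      simp only [one_mul]
      rw [h0, zero_mul])
    have h5 := hm (mem_Ici.2 ht.1) (mem_Ici.2 hn.le) ht.2
    simp only [one_mul, hc0, hs0, mul_zero, add_zero, one_pow] at h5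
    rwa [← sq_le_one_iff_abs_le_one]
  obtain ⟨a, ha⟩ := IsCompact.nonempty_iInter_of_sequence_nonempty_isCompact_isClosed A hanti hne
    hcomp hclosed
  rw [mem_iInter] at ha
  refine ⟨_, _, hc.lin hs 1 a, by simp [hc0, hs0], fun t ht => ?_⟩
  obtain ⟨n, hn⟩ := exists_nat_ge (-t)
  have := ha n t ⟨by linarith, ht⟩
  simpa using this

/-- Bounded solutions are nondecreasing in absolute value. -/
lemma nonneg_of_bdd (h : Jac k j j') (hk0 : ∀ t, 0 ≤ k t) {C : ℝ} (hb : ∀ t ≤ 0, |j t| ≤ C)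
    (t : ℝ) : 0 ≤ j t * j' t := by
  by_contra hcon
  push Not at hcon
  set t1 := min t 0 with ht1
  have h1 : j t1 * j' t1 < 0 := lt_of_le_of_lt (h.mul_mono hk0 (min_le_left t 0)) hcon
  set ε := -(j t1 * j' t1) with hε
  have hε0 : 0 < ε := by linarith
  have h2 : AntitoneOn (fun s => j s ^ 2 + 2 * ε * s) (Iic t1) := by
    have hd : ∀ s, HasDerivAt (fun s => j s ^ 2 + 2 * ε * s) (2 * (j s * j' s) + 2 * ε) s := by
      intro s
      have := (h.hasDerivAt_sq s).add ((hasDerivAt_id' s).const_mul (2 * ε))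
      exact this.congr_deriv (by ring)
    apply antitoneOn_of_deriv_nonpos (convex_Iic t1)
      (fun s _ => (hd s).continuousAt.continuousWithinAt)
      (fun s _ => (hd s).differentiableAt.differentiableWithinAt)
    intro s hs
    rw [interior_Iic, mem_Iio] at hs
    rw [(hd s).deriv]
    have := h.mul_mono hk0 hs.le
    simp only at this
    linarith
  have hC : 0 ≤ C ^ 2 + 1 := by positivity
  set s := t1 - (C ^ 2 + 1) / (2 * ε) with hs
  have hst : s ≤ t1 := by
    rw [hs]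
    have : 0 ≤ (C ^ 2 + 1) / (2 * ε) := by positivity
    linarith
  have h3 := h2 (mem_Iic.2 hst) (mem_Iic.2 le_rfl) hst
  simp only at h3
  have h4 : 2 * ε * s = 2 * ε * t1 - (C ^ 2 + 1) := by
    rw [hs]; field_simp
  have h5 : |j s| ≤ C := hb s (hst.trans (min_le_right t 0))
  have h6 : j s ^ 2 ≤ C ^ 2 := by
    rw [← sq_abs]
    exact pow_le_pow_left₀ (abs_nonneg _) h5 2
  nlinarith [sq_nonneg (j t1)]

/-- A nonzero bounded solution does not vanish. -/
lemma ne_zero_of_bdd (hk : Continuous k) (h : Jac k j j') (hk0 : ∀ t, 0 ≤ k t) {C : ℝ}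
    (hb : ∀ t ≤ 0, |j t| ≤ C) (hne : j 0 ≠ 0 ∨ j' 0 ≠ 0) (t : ℝ) : j t ≠ 0 := by
  intro h0
  have hm : Monotone fun s => j s ^ 2 := by
    apply monotone_of_deriv_nonneg (fun s => (h.hasDerivAt_sq s).differentiableAt)
    intro s
    rw [(h.hasDerivAt_sq s).deriv]
    linarith [h.nonneg_of_bdd hk0 hb s]
  have h1 : ∀ s ∈ Ioo (t - 1) t, j s = 0 := by
    intro s hs
    have := hm hs.2.le
    simp only [h0] at this
    nlinarith [sq_nonneg (j s)]
  obtain ⟨h2, h3⟩ := h.zero_of_zero_on hk (by linarith) h1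
  rcases hne with h4 | h4
  · exact h4 h2
  · exact h4 h3

/-- Uniqueness of the bounded solution up to scaling. -/
lemma unique_ratio (hk : Continuous k) (h : Jac k j j') (g : Jac k i i') (hk0 : ∀ t, 0 ≤ k t)
    {C D : ℝ} (hb : ∀ t ≤ 0, |j t| ≤ C) (hb' : ∀ t ≤ 0, |i t| ≤ D) :
    j 0 * i' 0 = j' 0 * i 0 := by
  have hl := h.lin g (i 0) (-(j 0))
  have hbl : ∀ t ≤ 0, |i 0 * j t + -(j 0) * i t| ≤ |i 0| * C + |j 0| * D := by
    intro t ht
    refine (abs_add_le _ _).trans ?_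
    rw [abs_mul, abs_mul, abs_neg]
    exact add_le_add (mul_le_mul_of_nonneg_left (hb t ht) (abs_nonneg _))
      (mul_le_mul_of_nonneg_left (hb' t ht) (abs_nonneg _))
  by_contra hcon
  have hne : i 0 * j 0 + -(j 0) * i 0 ≠ 0 ∨ i 0 * j' 0 + -(j 0) * i' 0 ≠ 0 := by
    right
    intro h0
    apply hcon
    linarith
  exact hl.ne_zero_of_bdd hk hk0 hbl hne 0 (by ring)

lemma pos_of_bdd (hk : Continuous k) (h : Jac k j j') (hk0 : ∀ t, 0 ≤ k t) {C : ℝ}
    (hb : ∀ t ≤ 0, |j t| ≤ C) (h1 : j 0 = 1) (t : ℝ) : 0 < j t := by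
  have hne := h.ne_zero_of_bdd hk hk0 hb (Or.inl (by rw [h1]; norm_num))
  by_contra hcon
  push Not at hcon
  obtain ⟨s, hs⟩ := mem_range_of_exists_le_of_exists_ge h.continuous ⟨t, hcon⟩
    ⟨0, by rw [h1]; norm_num⟩
  exact hne s hs

lemma deriv_nonneg (hk : Continuous k) (h : Jac k j j') (hk0 : ∀ t, 0 ≤ k t) {C : ℝ}
    (hb : ∀ t ≤ 0, |j t| ≤ C) (h1 : j 0 = 1) (t : ℝ) : 0 ≤ j' t :=
  nonneg_of_mul_nonneg_right (h.nonneg_of_bdd hk0 hb t) (h.pos_of_bdd hk hk0 hb h1 t)

lemma mono_deriv (hk : Continuous k) (h : Jac k j j') (hk0 : ∀ t, 0 ≤ k t) {C : ℝ}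
    (hb : ∀ t ≤ 0, |j t| ≤ C) (h1 : j 0 = 1) : Monotone j' := by
  apply monotone_of_deriv_nonneg (fun s => (h.jacobi s).differentiableAt)
  intro s
  rw [(h.jacobi s).deriv]
  exact mul_nonneg (hk0 s) (h.pos_of_bdd hk hk0 hb h1 s).le

lemma mono (hk : Continuous k) (h : Jac k j j') (hk0 : ∀ t, 0 ≤ k t) {C : ℝ}
    (hb : ∀ t ≤ 0, |j t| ≤ C) (h1 : j 0 = 1) : Monotone j := by
  apply monotone_of_deriv_nonneg (fun s => (h.deriv s).differentiableAt)
  intro s
  rw [(h.deriv s).deriv]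
  exact h.deriv_nonneg hk hk0 hb h1 s

/-- The solution lies above its tangent at `0`. -/
lemma tangent_le (hk : Continuous k) (h : Jac k j j') (hk0 : ∀ t, 0 ≤ k t) {C : ℝ}
    (hb : ∀ t ≤ 0, |j t| ≤ C) (h1 : j 0 = 1) {t : ℝ} (ht : t ≤ 0) : 1 + j' 0 * t ≤ j t := by
  have hd : ∀ s, HasDerivAt (fun s => j s - j' 0 * s) (j' s - j' 0) s := by
    intro s
    have := (h.deriv s).sub ((hasDerivAt_id' s).const_mul (j' 0))
    exact this.congr_deriv (by ring)
  have h2 : AntitoneOn (fun s => j s - j' 0 * s) (Iic 0) := by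
    apply antitoneOn_of_deriv_nonpos (convex_Iic 0)
      (fun s _ => (hd s).continuousAt.continuousWithinAt)
      (fun s _ => (hd s).differentiableAt.differentiableWithinAt)
    intro s hs
    rw [interior_Iic, mem_Iio] at hs
    rw [(hd s).deriv]
    linarith [h.mono_deriv hk hk0 hb h1 hs.le]
  have h3 := h2 (mem_Iic.2 ht) (mem_Iic.2 le_rfl) ht
  simp only [h1, mul_zero, sub_zero] at h3
  linarith

lemma lower (hk : Continuous k) (h : Jac k j j') (hk0 : ∀ t, 0 ≤ k t) {C : ℝ}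
    (hb : ∀ t ≤ 0, |j t| ≤ C) (h1 : j 0 = 1) {τ k1 : ℝ} (hτ : 0 ≤ τ) (hk1 : 0 ≤ k1)
    (hk1' : ∀ t ∈ Icc (-τ) 0, k1 ≤ k t) : k1 * (τ - j' 0 * τ ^ 2 / 2) ≤ j' 0 := by
  have hd : ∀ s, HasDerivAt (fun s => j' s - k1 * (s + j' 0 * s ^ 2 / 2))
      (k s * j s - k1 * (1 + j' 0 * s)) s := by
    intro s
    have e := ((((hasDerivAt_pow 2 s).const_mul (j' 0)).div_const 2).add (hasDerivAt_id' s)).const_mul
      k1
    have := (h.jacobi s).sub e
    refine (this.congr_deriv ?_).congr_of_eventuallyEq (Eventually.of_forall fun x => ?_)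
    · push_cast; ring
    · simp only [Pi.sub_apply, Pi.add_apply]; ring
  have h2 : MonotoneOn (fun s => j' s - k1 * (s + j' 0 * s ^ 2 / 2)) (Icc (-τ) 0) := by
    apply monotoneOn_of_deriv_nonneg (convex_Icc _ _)
      (fun s _ => (hd s).continuousAt.continuousWithinAt)
      (fun s _ => (hd s).differentiableAt.differentiableWithinAt)
    intro s hs
    rw [interior_Icc] at hs
    rw [(hd s).deriv]
    have h3 := h.tangent_le hk hk0 hb h1 hs.2.le
    have h4 := h.pos_of_bdd hk hk0 hb h1 s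
    have h5 := hk1' s ⟨hs.1.le, hs.2.le⟩
    nlinarith
  have h3 := h2 ⟨le_rfl, by linarith⟩ ⟨by linarith, le_rfl⟩ (by linarith : -τ ≤ 0)
  have h4 := h.deriv_nonneg hk hk0 hb h1 (-τ)
  simp only at h3
  nlinarith

lemma upper (hk : Continuous k) (h : Jac k j j') (hk0 : ∀ t, 0 ≤ k t) {C : ℝ}
    (hb : ∀ t ≤ 0, |j t| ≤ C) (h1 : j 0 = 1) {τ k2 : ℝ} (hτ : 0 ≤ τ)
    (hk2 : ∀ t ∈ Icc (-τ) 0, k t ≤ k2) : j' 0 * τ - k2 * τ ^ 2 / 2 ≤ 1 := by
  have hd : ∀ s, HasDerivAt (fun s => j' s - k2 * s) (k s * j s - k2) s := by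
    intro s
    have := (h.jacobi s).sub ((hasDerivAt_id' s).const_mul k2)
    exact this.congr_deriv (by ring)
  have hle : ∀ s ≤ 0, j s ≤ 1 := by
    intro s hs
    have := h.mono hk hk0 hb h1 hs
    rwa [h1] at this
  have h2 : AntitoneOn (fun s => j' s - k2 * s) (Icc (-τ) 0) := by
    apply antitoneOn_of_deriv_nonpos (convex_Icc _ _)
      (fun s _ => (hd s).continuousAt.continuousWithinAt)
      (fun s _ => (hd s).differentiableAt.differentiableWithinAt)
    intro s hs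
    rw [interior_Icc] at hs
    rw [(hd s).deriv]
    have h3 := hle s hs.2.le
    have h4 := h.pos_of_bdd hk hk0 hb h1 s
    have h5 := hk2 s ⟨hs.1.le, hs.2.le⟩
    have h6 := hk0 s
    nlinarith
  have hd2 : ∀ s, HasDerivAt (fun s => j s - (j' 0 * s + k2 * s ^ 2 / 2))
      (j' s - (j' 0 + k2 * s)) s := by
    intro s
    have e := (((hasDerivAt_pow 2 s).const_mul k2).div_const 2).add
      ((hasDerivAt_id' s).const_mul (j' 0))
    have := (h.deriv s).sub e
    refine (this.congr_deriv ?_).congr_of_eventuallyEq (Eventually.of_forall fun x => ?_)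
    · push_cast; ring
    · simp only [Pi.sub_apply, Pi.add_apply]; ring
  have h3 : MonotoneOn (fun s => j s - (j' 0 * s + k2 * s ^ 2 / 2)) (Icc (-τ) 0) := by
    apply monotoneOn_of_deriv_nonneg (convex_Icc _ _)
      (fun s _ => (hd2 s).continuousAt.continuousWithinAt)
      (fun s _ => (hd2 s).differentiableAt.differentiableWithinAt)
    intro s hs
    rw [interior_Icc] at hs
    rw [(hd2 s).deriv]
    have h4 := h2 ⟨hs.1.le, hs.2.le⟩ ⟨by linarith, le_rfl⟩ hs.2.le
    simp only at h4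
    linarith
  have h4 := h3 ⟨le_rfl, by linarith⟩ ⟨by linarith, le_rfl⟩ (by linarith : -τ ≤ 0)
  have h5 := h.pos_of_bdd hk hk0 hb h1 (-τ)
  simp only [h1] at h4
  nlinarith

end Jac

end Pool.Agent.Helper61
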