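import Mathlib
import Pool.Agent.Helper61.Liouville.Geod
import Pool.Agent.Helper61.Liouville.Jacobi

/-!
The geometric potential of the explicit surface is well defined and at most `-ρ/2400`.
-/

namespace Pool.Agent.Helper61

open Complex Filter Topology Set
open scoped NNReal

lemma continuousAt_kap {z : ℂ} (hz : 0 < FF z) : ContinuousAt kap z := by
  have hF : ContinuousAt FF z := (contDiff_FF (n := 0)).continuous.continuousAt
  have hx : ContinuousAt FFx z := (contDiff_FFx (n := 0)).continuous.continuousAt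
  have hy : ContinuousAt FFy z := (contDiff_FFy (n := 0)).continuous.continuousAt
  have hq : ContinuousAt qq z := (contDiff_qq (n := 0)).continuous.continuousAt
  have hH : ContinuousAt (fun z => hh (FF z)) z :=
    ContinuousAt.comp (g := hh) (hasDerivAt_hh hz).continuousAt hF
  have ha : ContinuousAt (fun z : ℂ => al z.re) z :=
    ((contDiff_al (n := 0)).continuous.comp Complex.continuous_re).continuousAt
  have hb : ContinuousAt (fun z : ℂ => al z.im) z :=
    ((contDiff_al (n := 0)).continuous.comp Complex.continuous_im).continuousAt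
  have hl : ContinuousAt (fun z => Real.log (qq z)) z := hq.log (qq_pos z).ne'
  have hl0 : Real.log (qq z) ≠ 0 := by linarith [log_qq_ge z]
  have hq0 : qq z ≠ 0 := (qq_pos z).ne'
  have hD : ContinuousAt DD z := by
    have e : DD = fun z => (200 + 400 / Real.log (qq z)
      - 4 * (qq z - 100) / Real.log (qq z) ^ 2) / qq z ^ 2 := funext DD_eq
    rw [e]
    exact ((continuousAt_const.add (continuousAt_const.div hl hl0)).sub
      ((continuousAt_const.mul (hq.sub continuousAt_const)).div (hl.pow 2)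
        (pow_ne_zero 2 hl0))).div (hq.pow 2) (pow_ne_zero 2 hq0)
  unfold kap
  have h2F : (2 : ℝ) * FF z ≠ 0 := by positivity
  have h4F : (4 : ℝ) * FF z ≠ 0 := by positivity
  exact ((((hH.mul (hH.sub continuousAt_const)).mul
    (((hF.pow 2).sub ((ha.mul hb).pow 2)).div_const 3)).div (continuousAt_const.mul hF) h2F).add
    (((hx.pow 2).add (hy.pow 2)).div (continuousAt_const.mul hF) h4F)).sub
    ((hF.mul (hH.pow 2)).mul hD)

lemma continuous_rho2 : Continuous rho2 := by
  unfold rho2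
  have hq : Continuous qq := (contDiff_qq (n := 0)).continuous
  exact hq.mul ((hq.log fun z => (qq_pos z).ne').pow 2)

/-- Minus the curvature along a curve. -/
noncomputable def kk (γ : ℝ → ℂ) (t : ℝ) : ℝ := rho2 (γ t) * kap (γ t)

section

variable {γ w : ℝ → ℂ} (h : exSurf.IsUnitGeodesic γ w)

include h

lemma geod_F (t : ℝ) : 0 < FF (γ t) := h.mem t

lemma geod_cont : Continuous γ := continuous_iff_continuousAt.2 fun t => (h.velocity t).continuousAt

lemma kk_continuous : Continuous (kk γ) := by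
  rw [continuous_iff_continuousAt]
  intro t
  exact (continuous_rho2.comp (geod_cont h)).continuousAt.mul
    (ContinuousAt.comp (g := kap) (continuousAt_kap (geod_F h t)) (geod_cont h).continuousAt)

lemma kk_lower (t : ℝ) : rho (γ t) ^ 2 / 6 ≤ kk γ t := by
  unfold kk
  rw [← rho_sq]
  have := kap_lower (geod_F h t)
  nlinarith [sq_nonneg (rho (γ t))]

lemma kk_upper (t : ℝ) : kk γ t ≤ 3 * rho (γ t) ^ 2 := by
  unfold kk
  rw [← rho_sq]
  have := kap_upper (geod_F h t)
  nlinarith [sq_nonneg (rho (γ t))]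

lemma kk_nonneg (t : ℝ) : 0 ≤ kk γ t := by
  have := kk_lower h t
  nlinarith [sq_nonneg (rho (γ t))]

lemma isJacobi_iff (j j' : ℝ → ℝ) : exSurf.IsJacobi γ j j' ↔ Jac (kk γ) j j' := by
  have e : ∀ t, -(exSurf.curvature (γ t)) * j t = kk γ t * j t := by
    intro t
    rw [exSurf_curvature (geod_F h t)]
    unfold kk
    ring
  constructor
  · intro hj
    exact ⟨hj.deriv, fun t => by rw [← e]; exact hj.jacobi t⟩
  · intro hj
    exact ⟨hj.deriv, fun t => by rw [e]; exact hj.jacobi t⟩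

lemma inv_rho_deriv (t : ℝ) : ∃ d : ℝ, HasDerivAt (fun t => 1 / rho (γ t)) d t ∧ |d| ≤ 3 / 5 := by
  set z := γ t with hz
  have hq := qq_pos z
  have hs := sqrt_qq_ge z
  have hl := log_qq_ge z
  have hr := rho_pos z
  have h0 : HasFDerivAt qq (form (2 * z.re) (2 * z.im)) z := (jet_qq z).first.self_of_nhds
  have h2 : HasDerivAt (fun t => qq (γ t)) (form (2 * z.re) (2 * z.im) (w t)) t :=
    HasFDerivAt.comp_hasDerivAt (l := qq) (f := γ) t h0 (h.velocity t)
  set Q' := form (2 * z.re) (2 * z.im) (w t) with hQ'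
  have h3 : HasDerivAt (fun t => √(qq (γ t)) * Real.log (qq (γ t)))
      (Q' / (2 * √(qq z)) * Real.log (qq z) + √(qq z) * (Q' / qq z)) t :=
    (h2.sqrt hq.ne').mul (h2.log hq.ne')
  have h4 : HasDerivAt (fun t => 1 / rho (γ t))
      (-(Q' / (2 * √(qq z)) * Real.log (qq z) + √(qq z) * (Q' / qq z)) / rho z ^ 2) t := by
    have e : (fun t => 1 / rho (γ t)) = fun t => (√(qq (γ t)) * Real.log (qq (γ t)))⁻¹ := by
      ext t; unfold rho; rw [one_div]
    rw [e]
    exact h3.fun_inv hr.ne'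
  refine ⟨_, h4, ?_⟩
  have hw : ‖w t‖ ≤ 3 * rho z := by
    have h5 := h.unit t
    rw [exp_ph_mul_norm] at h5
    rw [h5]
    exact exp_neg_ph_le (geod_F h t)
  have h6 : √((2 * z.re) ^ 2 + (2 * z.im) ^ 2) ≤ 2 * √(qq z) := by
    rw [show (2 : ℝ) * √(qq z) = √(4 * qq z) by
      rw [Real.sqrt_mul (by norm_num), show (4 : ℝ) = 2 ^ 2 by norm_num,
        Real.sqrt_sq (by norm_num)]]
    apply Real.sqrt_le_sqrt
    unfold qq
    nlinarith
  have h7 : |Q'| ≤ (2 * √(qq z)) * (3 * rho z) :=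
    (form_abs_le _ _ _).trans (mul_le_mul h6 hw (norm_nonneg _) (by positivity))
  have h8 : Q' / (2 * √(qq z)) * Real.log (qq z) + √(qq z) * (Q' / qq z)
      = Q' * ((Real.log (qq z) + 2) / (2 * √(qq z))) := by
    have e1 : √(qq z) * (Q' / qq z) = Q' / √(qq z) := by
      have := Real.mul_self_sqrt hq.le
      rw [← mul_div_assoc, div_eq_div_iff hq.ne' (by positivity)]
      linear_combination Q' * this
    rw [e1]
    field_simp
  rw [h8, abs_div, abs_neg, abs_mul, abs_of_pos (by positivity : 0 < rho z ^ 2),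
    abs_of_pos (by positivity : 0 < (Real.log (qq z) + 2) / (2 * √(qq z))),
    div_le_iff₀ (by positivity)]
  calc |Q'| * ((Real.log (qq z) + 2) / (2 * √(qq z)))
      ≤ ((2 * √(qq z)) * (3 * rho z)) * ((Real.log (qq z) + 2) / (2 * √(qq z))) :=
        mul_le_mul_of_nonneg_right h7 (by positivity)
    _ = 3 * rho z * (Real.log (qq z) + 2) := by field_simp
    _ ≤ 3 / 5 * rho z ^ 2 := by
        have : 10 * Real.log (qq z) ≤ rho z := by
          unfold rho
          nlinarith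
        nlinarith

lemma inv_rho_close (t : ℝ) : |1 / rho (γ t) - 1 / rho (γ 0)| ≤ 3 / 5 * |t| := by
  choose d hd hd' using inv_rho_deriv h
  exact abs_sub_le_of_deriv_le (T := |t|) (fun s _ => hd s) (fun s _ => hd' s) le_rfl

lemma kk_bounds {t : ℝ} (ht : |t| ≤ 1 / (2 * rho (γ 0))) :
    rho (γ 0) ^ 2 / 11 ≤ kk γ t ∧ kk γ t ≤ 7 * rho (γ 0) ^ 2 := by
  have h1 := inv_rho_close h t
  have hr0 := rho_pos (γ 0)
  have hr := rho_pos (γ t)
  have h2 : |1 / rho (γ t) - 1 / rho (γ 0)| ≤ 3 / 10 * (1 / rho (γ 0)) := by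
    refine h1.trans ?_
    have : 3 / 5 * |t| ≤ 3 / 5 * (1 / (2 * rho (γ 0))) := by gcongr
    refine this.trans_eq ?_
    field_simp
    norm_num
  rw [abs_le] at h2
  obtain ⟨h3, h4⟩ := h2
  have h5 : 1 / rho (γ t) ≤ 13 / 10 * (1 / rho (γ 0)) := by linarith
  have h6 : 7 / 10 * (1 / rho (γ 0)) ≤ 1 / rho (γ t) := by linarith
  have h7 : 10 * rho (γ 0) ≤ 13 * rho (γ t) := by
    rw [mul_one_div, div_le_div_iff₀ hr hr0] at h5
    linarith
  have h8 : 7 * rho (γ t) ≤ 10 * rho (γ 0) := by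
    rw [mul_one_div, div_le_div_iff₀ hr0 hr] at h6
    linarith
  constructor
  · refine le_trans ?_ (kk_lower h t)
    nlinarith
  · refine (kk_upper h t).trans ?_
    nlinarith

end

/-- The derivative in the definition of the geometric potential. -/
lemma value {k j j' : ℝ → ℝ} (h : Jac k j j') (hne : j 0 ≠ 0) :
    HasDerivAt (fun t => -Real.log (sasakiNorm (j t) (j' t) / sasakiNorm (j 0) (j' 0)))
      (-(j 0 * j' 0 * (1 + k 0) / (j 0 ^ 2 + j' 0 ^ 2))) 0 := by
  have h0 : 0 < j 0 ^ 2 + j' 0 ^ 2 := by positivity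
  have h1 : HasDerivAt (fun t => j t ^ 2 + j' t ^ 2)
      (2 * (j 0 * j' 0) + 2 * (j' 0 * (k 0 * j 0))) 0 := by
    have e2 := (h.jacobi 0).pow 2
    exact ((h.hasDerivAt_sq 0).add e2).congr_deriv (by simp; ring)
  have h2 := ((h1.sqrt h0.ne').div_const (√(j 0 ^ 2 + j' 0 ^ 2))).log
    (div_ne_zero (by positivity) (by positivity))
  refine h2.neg.congr_deriv ?_
  have h3 := Real.mul_self_sqrt h0.le
  have h4 : 0 < √(j 0 ^ 2 + j' 0 ^ 2) := Real.sqrt_pos.2 h0
  rw [div_self h4.ne', div_one, div_div, neg_inj, div_eq_div_iff (by positivity) h0.ne']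
  linear_combination (-2 * (j 0 * j' 0) * (1 + k 0)) * h3

lemma value_horo {k j j' : ℝ → ℝ} (h : Jac k j j') (hne : j 0 ≠ 0) :
    HasDerivAt (fun t => -Real.log (horosphericalNorm (j t) (j' t)
      / horosphericalNorm (j 0) (j' 0))) (-(j' 0 / j 0)) 0 := by
  have h1 : HasDerivAt (fun t => Real.log (j t) - Real.log (j 0)) (j' 0 / j 0) 0 :=
    ((h.deriv 0).log hne).sub_const _
  refine (h1.neg).congr_of_eventuallyEq ?_
  have h2 : ∀ᶠ t in 𝓝 (0 : ℝ), j t ≠ 0 := h.continuous.continuousAt.eventually_ne hne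
  filter_upwards [h2] with t ht
  change -Real.log (|j t| / |j 0|) = -(Real.log (j t) - Real.log (j 0))
  rw [Real.log_div (abs_ne_zero.2 ht) (abs_ne_zero.2 hne), Real.log_abs, Real.log_abs]

/-- Elementary estimate for the value. -/
lemma value_bound {r u k0 : ℝ} (hr : 20 ≤ r) (hu1 : r / 23 ≤ u) (hu2 : u ≤ 4 * r)
    (hk : r ^ 2 / 6 ≤ k0) : r / 2400 ≤ u * (1 + k0) / (1 + u ^ 2) := by
  have h0 : 0 < 1 + u ^ 2 := by positivity
  have hu : 0 < u := by linarith
  rw [le_div_iff₀ h0]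
  have h1 : u ^ 2 ≤ 16 * r ^ 2 := by nlinarith
  have h2 : r / 2400 * (1 + u ^ 2) ≤ r / 2400 * (1 + 16 * r ^ 2) := by
    have : 0 ≤ r / 2400 := by linarith
    exact mul_le_mul_of_nonneg_left (by linarith) this
  have h3 : r / 23 * (r ^ 2 / 6) ≤ u * (1 + k0) :=
    mul_le_mul hu1 (by linarith) (by positivity) hu.le
  have h4 : r / 2400 * (1 + 16 * r ^ 2) ≤ r / 23 * (r ^ 2 / 6) := by
    have : 0 ≤ r * (r ^ 2 / 138 - 16 * r ^ 2 / 2400 - 1 / 2400) := by
      apply mul_nonneg (by linarith)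
      nlinarith
    nlinarith
  linarith

/-- The two norms in which the potential is computed. -/
def norms : Set (ℝ → ℝ → ℝ) := {sasakiNorm, horosphericalNorm}

/-- The value of the potential as a function of `(j(0), j'(0))` and of minus the curvature. -/
lemma exists_val {N : ℝ → ℝ → ℝ} (hN : N ∈ norms) :
    ∃ val : ℝ → ℝ → ℝ → ℝ,
      (∀ k j j' : ℝ → ℝ, Jac k j j' → j 0 ≠ 0 →
        HasDerivAt (fun t => -Real.log (N (j t) (j' t) / N (j 0) (j' 0)))
          (val (k 0) (j 0) (j' 0)) 0) ∧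
      (∀ k0 a u, a ≠ 0 → val k0 a (a * u) = val k0 1 u) ∧
      (∀ r u k0, 20 ≤ r → r / 23 ≤ u → u ≤ 4 * r → r ^ 2 / 6 ≤ k0 →
        val k0 1 u ≤ -(r / 2400)) := by
  rcases hN with rfl | hN
  · refine ⟨fun k0 a b => -(a * b * (1 + k0) / (a ^ 2 + b ^ 2)), fun k j j' h hne => value h hne,
      fun k0 a u ha => ?_, fun r u k0 hr h1 h2 h3 => ?_⟩
    · simp only
      rw [neg_inj, div_eq_div_iff (by positivity) (by positivity)]
      ring
    · simp only
      have := value_bound hr h1 h2 h3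
      rw [one_mul, one_pow]
      linarith
  · rw [Set.mem_singleton_iff] at hN
    subst hN
    refine ⟨fun k0 a b => -(b / a), fun k j j' h hne => value_horo h hne,
      fun k0 a u ha => ?_, fun r u k0 hr h1 h2 h3 => ?_⟩
    · simp only
      field_simp
    · simp only
      rw [div_one]
      linarith

lemma pot_exists {N : ℝ → ℝ → ℝ} (hN : N ∈ norms) {p : ℂ × ℂ} (hp : p ∈ exSurf.unitTangent) :
    ∃ c, exSurf.IsGeometricPotential N p c ∧ (∀ d, exSurf.IsGeometricPotential N p d → d = c) ∧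
      c ≤ -(rho p.1 / 2400) := by
  obtain ⟨val, hval1, hval2, hval3⟩ := exists_val hN
  obtain ⟨γ, w, hγ, hγ0⟩ := exSurf_complete p hp
  have hk := kk_continuous hγ
  have hk0 := kk_nonneg hγ
  obtain ⟨j, j', hj, hj0, hjb⟩ := Jac.exists_bounded hk hk0
  have hj00 : j 0 ≠ 0 := by rw [hj0]; norm_num
  have hzero : γ 0 = p.1 := by rw [← hγ0]
  refine ⟨val (kk γ 0) 1 (j' 0), ?_, ?_, ?_⟩
  · refine ⟨γ, w, j, j', hγ, hγ0, ⟨(isJacobi_iff hγ j j').2 hj, Or.inl hj00, 1, hjb⟩, ?_⟩
    have := hval1 _ _ _ hj hj00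
    rw [hj0] at this ⊢
    exact this
  · rintro d ⟨γ₁, w₁, i, i', hγ₁, hγ₁0, ⟨hi, hine, D, hib⟩, hd⟩
    obtain ⟨e1, -⟩ := geod_unique hγ hγ₁ (by rw [hγ0, hγ₁0])
    subst e1
    have hi1 := (isJacobi_iff hγ i i').1 hi
    have hi0 := hi1.ne_zero_of_bdd hk hk0 hib hine 0
    have hv := hval1 _ _ _ hi1 hi0
    rw [hd.unique hv]
    have hr := hj.unique_ratio hk hi1 hk0 hjb hib
    rw [hj0, one_mul, mul_comm] at hr
    rw [hr, hval2 _ _ _ hi0]
  · have hr := rho_ge (γ 0)
    rw [← hzero]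
    set r := rho (γ 0) with hrdef
    have hτ : 0 ≤ 1 / (2 * r) := by positivity
    have habs : ∀ t ∈ Icc (-(1 / (2 * r))) 0, |t| ≤ 1 / (2 * r) := by
      intro t ht
      rw [abs_le]
      exact ⟨ht.1, ht.2.trans hτ⟩
    have hlo := hj.lower hk hk0 hjb hj0 hτ (k1 := r ^ 2 / 11) (by positivity)
      (fun t ht => (kk_bounds hγ (habs t ht)).1)
    have hup := hj.upper hk hk0 hjb hj0 hτ (k2 := 7 * r ^ 2)
      (fun t ht => (kk_bounds hγ (habs t ht)).2)
    have hr0 : 0 < r := by linarith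
    have e1 : r ^ 2 / 11 * (1 / (2 * r) - j' 0 * (1 / (2 * r)) ^ 2 / 2)
        = r / 22 - j' 0 / 88 := by field_simp; ring
    have e2 : j' 0 * (1 / (2 * r)) - 7 * r ^ 2 * (1 / (2 * r)) ^ 2 / 2
        = j' 0 / (2 * r) - 7 / 8 := by field_simp; ring
    rw [e1] at hlo
    rw [e2] at hup
    have hu2 : j' 0 ≤ 4 * r := by
      have : j' 0 / (2 * r) ≤ 2 := by linarith
      rw [div_le_iff₀ (by positivity)] at this
      linarith
    exact hval3 _ _ _ hr (by linarith) hu2 (kk_lower hγ 0)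

end Pool.Agent.Helper61
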