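import Mathlib
import Pool.Agent.Helper61.Liouville.Potential
import Pool.Agent.Helper61.Liouville.Area2

/-!
The Liouville measure of the explicit surface and the divergence of the integral of the potential.
-/

namespace Pool.Agent.Helper61

open MeasureTheory Set Filter Topology
open scoped ENNReal

lemma measurableSet_U : MeasurableSet {z : ℂ | 0 < FF z} := exSurf.isOpen.measurableSet

lemma measurable_dens : Measurable fun z => ENNReal.ofReal (Real.exp (2 * ph z)) :=
  ((measurable_ph.const_mul 2).exp).ennreal_ofReal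

lemma area_lintegral {f : ℂ → ℝ≥0∞} (hf : Measurable f) :
    ∫⁻ z, f z ∂exSurf.area = ∫⁻ z in {z | 0 < FF z}, ENNReal.ofReal (Real.exp (2 * ph z)) * f z :=
  lintegral_withDensity_eq_lintegral_mul _ measurable_dens hf

lemma area_lt_top : exSurf.area univ < ⊤ := by
  have h1 : exSurf.area univ = ∫⁻ z in {z | 0 < FF z}, ENNReal.ofReal (Real.exp (2 * ph z)) := by
    have h2 := area_lintegral (f := fun _ => 1) measurable_const
    simp only [lintegral_const, one_mul, mul_one] at h2
    exact h2
  rw [h1]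
  refine lt_of_le_of_lt ?_ weighted_lt_top
  refine le_trans (setLIntegral_mono' (g := fun z => ENNReal.ofReal (ww z) *
    ENNReal.ofReal (1 / rho2 z)) measurableSet_U fun z hz => ?_) (setLIntegral_le_lintegral _ _)
  rw [exp_two_ph hz, ENNReal.ofReal_mul (ww_nonneg z)]

lemma ae_U : ∀ᵐ z : ℂ, 0 < FF z := by
  have h1 : (volume : Measure ℂ) {z | FF z = 0} = 0 := countable_lattice.measure_zero _
  rw [ae_iff]
  refine measure_mono_null (fun z hz => ?_) h1
  have hz' : ¬ 0 < FF z := hz
  exact le_antisymm (not_lt.1 hz') (FF_nonneg z)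

lemma area_rho : ∫⁻ z, ENNReal.ofReal (rho z / 2400) ∂exSurf.area = ⊤ := by
  rw [area_lintegral (measurable_rho.div_const 2400).ennreal_ofReal, ← top_le_iff,
    ← lintegral_rho_inv (c := 1 / 21600) (by norm_num)]
  have h1 : ∫⁻ z : ℂ, ENNReal.ofReal (1 / 21600 * (1 / rho z))
      = ∫⁻ z in {z : ℂ | 0 < FF z}, ENNReal.ofReal (1 / 21600 * (1 / rho z)) := by
    have h2 : (volume : Measure ℂ).restrict {z : ℂ | 0 < FF z} = volume :=
      Measure.restrict_eq_self_of_ae_mem ae_U
    rw [h2]
  rw [h1]
  apply setLIntegral_mono' measurableSet_U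
  intro z hz
  have hz' : 0 < FF z := hz
  rw [← ENNReal.ofReal_mul (Real.exp_pos _).le]
  apply ENNReal.ofReal_le_ofReal
  rw [exp_two_ph hz']
  have h2 : FF z * hh (FF z) ^ 2 ≤ 9 := FH_sq_le hz' (FF_le_one z)
  have h3 := hh_FF_ge hz'
  have h4 : 1 / 9 ≤ ww z := by
    unfold ww
    exact one_div_le_one_div_of_le (by positivity) h2
  have hr := rho_pos z
  have h5 : ww z * (1 / rho2 z) * (rho z / 2400) = ww z * (1 / 2400 * (1 / rho z)) := by
    rw [← rho_sq]
    field_simp
  rw [h5]
  have h6 : 0 ≤ 1 / 2400 * (1 / rho z) := by positivity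
  calc 1 / 21600 * (1 / rho z) = 1 / 9 * (1 / 2400 * (1 / rho z)) := by ring
    _ ≤ ww z * (1 / 2400 * (1 / rho z)) := mul_le_mul_of_nonneg_right h4 h6

/-- The parametrisation of the unit tangent bundle. -/
noncomputable def Par (p : ℂ × ℝ) : ℂ × ℂ :=
  (p.1, (Real.exp (-ph p.1) : ℂ) * Complex.exp (p.2 * Complex.I))

lemma measurable_Par : Measurable Par := by
  unfold Par
  apply Measurable.prodMk measurable_fst
  apply Measurable.mul
  · exact Complex.measurable_ofReal.comp ((measurable_ph.comp measurable_fst).neg.exp)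
  · apply Complex.measurable_exp.comp
    exact (Complex.measurable_ofReal.comp measurable_snd).mul measurable_const

lemma liouvilleVolume_eq : exSurf.liouvilleVolume
    = (exSurf.area.prod (volume.restrict (Ioc 0 (2 * Real.pi)))).map Par := rfl

instance : IsFiniteMeasure exSurf.area := ⟨area_lt_top⟩

lemma ofReal_two_pi_ne : ENNReal.ofReal (2 * Real.pi) ≠ 0 := by
  rw [ne_eq, ENNReal.ofReal_eq_zero, not_le]
  positivity

lemma liouvilleVolume_univ : exSurf.liouvilleVolume univ
    = exSurf.area univ * ENNReal.ofReal (2 * Real.pi) := by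
  rw [liouvilleVolume_eq, Measure.map_apply measurable_Par MeasurableSet.univ, preimage_univ,
    ← univ_prod_univ, Measure.prod_prod, Measure.restrict_apply_univ, Real.volume_Ioc, sub_zero]

lemma area_ne_zero : exSurf.area univ ≠ 0 := by
  intro h
  have h1 := area_rho
  rw [Measure.measure_univ_eq_zero.1 h, lintegral_zero_measure] at h1
  exact ENNReal.zero_ne_top h1

lemma liouvilleVolume_ne_zero : exSurf.liouvilleVolume univ ≠ 0 := by
  rw [liouvilleVolume_univ]
  exact mul_ne_zero area_ne_zero ofReal_two_pi_ne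

lemma liouvilleVolume_ne_top : exSurf.liouvilleVolume univ ≠ ⊤ := by
  rw [liouvilleVolume_univ]
  exact ENNReal.mul_ne_top area_lt_top.ne ENNReal.ofReal_ne_top

lemma liouville_prob : IsProbabilityMeasure exSurf.liouville := by
  constructor
  unfold ConfSurface.liouville
  rw [Measure.smul_apply, smul_eq_mul,
    ENNReal.inv_mul_cancel liouvilleVolume_ne_zero liouvilleVolume_ne_top]

lemma measurableSet_unitTangent : MeasurableSet exSurf.unitTangent := by
  have h1 : Measurable fun p : ℂ × ℂ => exSurf.len p.1 p.2 := by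
    change Measurable fun p : ℂ × ℂ => Real.exp (ph p.1) * ‖p.2‖
    exact ((measurable_ph.comp measurable_fst).exp).mul (measurable_snd.norm)
  have h2 : exSurf.unitTangent
      = (Prod.fst ⁻¹' {z : ℂ | 0 < FF z}) ∩ (fun p : ℂ × ℂ => exSurf.len p.1 p.2) ⁻¹' {1} := by
    ext p
    rfl
  rw [h2]
  exact (measurable_fst measurableSet_U).inter (h1 (measurableSet_singleton 1))

lemma Par_mem {p : ℂ × ℝ} (hp : 0 < FF p.1) : Par p ∈ exSurf.unitTangent := by
  refine ⟨hp, ?_⟩
  rw [exp_ph_mul_norm]
  unfold Par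
  rw [norm_mul, Complex.norm_exp_ofReal_mul_I, mul_one, Complex.norm_real, Real.norm_eq_abs,
    abs_of_pos (Real.exp_pos _)]

lemma liouvilleVolume_compl : exSurf.liouvilleVolume exSurf.unitTangentᶜ = 0 := by
  rw [liouvilleVolume_eq, Measure.map_apply measurable_Par measurableSet_unitTangent.compl]
  have h1 : exSurf.area {z | 0 < FF z}ᶜ = 0 := by
    change ((volume.restrict {z | 0 < FF z}).withDensity _) _ = 0
    apply withDensity_absolutelyContinuous
    rw [Measure.restrict_apply measurableSet_U.compl, compl_inter_self, measure_empty]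
  have h2 : Par ⁻¹' exSurf.unitTangentᶜ ⊆ {z | 0 < FF z}ᶜ ×ˢ univ := by
    intro p hp
    refine ⟨fun h => hp (Par_mem h), mem_univ _⟩
  refine measure_mono_null h2 ?_
  rw [Measure.prod_prod, h1, zero_mul]

lemma liouville_compl : exSurf.liouville exSurf.unitTangentᶜ = 0 := by
  unfold ConfSurface.liouville
  rw [Measure.smul_apply, liouvilleVolume_compl, smul_zero]

lemma lintegral_minorant : ∫⁻ v, ENNReal.ofReal (rho v.1 / 2400) ∂exSurf.liouville = ⊤ := by
  unfold ConfSurface.liouville
  have hm : Measurable fun z : ℂ => ENNReal.ofReal (rho z / 2400) :=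
    (measurable_rho.div_const 2400).ennreal_ofReal
  have hm2 : Measurable fun v : ℂ × ℂ => ENNReal.ofReal (rho v.1 / 2400) :=
    hm.comp measurable_fst
  have hm3 : Measurable fun p : ℂ × ℝ => ENNReal.ofReal (rho (Par p).1 / 2400) :=
    hm2.comp measurable_Par
  rw [lintegral_smul_measure, liouvilleVolume_eq, lintegral_map hm2 measurable_Par,
    lintegral_prod _ hm3.aemeasurable]
  have h1 : ∀ z : ℂ, ∫⁻ y : ℝ in Ioc 0 (2 * Real.pi), ENNReal.ofReal (rho (Par (z, y)).1 / 2400)
      = ENNReal.ofReal (2 * Real.pi) * ENNReal.ofReal (rho z / 2400) := by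
    intro z
    change ∫⁻ y : ℝ in Ioc 0 (2 * Real.pi), ENNReal.ofReal (rho z / 2400) = _
    rw [lintegral_const, Measure.restrict_apply_univ, Real.volume_Ioc, sub_zero, mul_comm]
  simp only [h1]
  rw [lintegral_const_mul _ hm, area_rho, ENNReal.mul_top ofReal_two_pi_ne, smul_eq_mul,
    ENNReal.mul_top]
  rw [ne_eq, ENNReal.inv_eq_zero, ← liouvilleVolume_eq]
  exact liouvilleVolume_ne_top

end Pool.Agent.Helper61
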